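import Pool.Agent.Lib.MP_abd978_an.UN.Interfaces

/-!
# Project UNW, module DIRAPP: approximation of frozen solutions by solutions of the blown up
equation
-/

set_option autoImplicit false

open MeasureTheory Metric Set Filter Topology ContDiff
open scoped Gradient RealInnerProductSpace NNReal ENNReal Convolution

namespace Pool.Agent.Lib.MP_abd978_an.UN.H88

variable {n : ℕ} {p : ℝ}

theorem op_scale {a : E n → E n → E n} {α β : ℝ} (h : Op p volume a α β) (x₀ : E n) (r : ℝ) :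
    Op p volume (fun y ξ => a (x₀ + r • y) ξ) α β where
  toGeo := h.toGeo
  hα := h.hα
  hαβ := h.hαβ
  meas := h.meas.comp (f := fun q : E n × E n => (x₀ + r • q.1, q.2)) (by fun_prop)
  cont := fun x => h.cont _
  ell := fun x ξ => h.ell _ ξ
  bdd := fun x ξ => h.bdd _ ξ
  mono := fun x ξ η hne => h.mono _ ξ η hne
  hom := fun x l ξ hl => h.hom _ l ξ hl
  neg := fun x ξ => h.neg _ ξ

theorem op_frozen {a : E n → E n → E n} {α β : ℝ} (h : Op p volume a α β) (x₀ : E n) :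
    Op p volume (fun _ ξ => a x₀ ξ) α β where
  toGeo := h.toGeo
  hα := h.hα
  hαβ := h.hαβ
  meas := h.meas.comp (f := fun q : E n × E n => (x₀, q.2)) (by fun_prop)
  cont := fun x => h.cont _
  ell := fun x ξ => h.ell _ ξ
  bdd := fun x ξ => h.bdd _ ξ
  mono := fun x ξ η hne => h.mono _ ξ η hne
  hom := fun x l ξ hl => h.hom _ l ξ hl
  neg := fun x ξ => h.neg _ ξ

theorem op_frz {a : E n → E n → E n} {α β : ℝ} (h : Op p volume a α β) (x₀ : E n) :
    Frz p (a x₀) :=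
  ⟨h.cont x₀, h.mono x₀, h.hom x₀, h.neg x₀⟩

theorem rpow_lam {q p l : ℝ} (hq : 0 ≤ q) (hqp : q < p) (hl : 0 < l) :
    ∃ C : ℝ, 0 ≤ C ∧ ∀ t : ℝ, 0 ≤ t → t ^ q ≤ l * t ^ p + C := by
  set T := l ^ (-(p - q)⁻¹) with hT
  have hT0 : 0 < T := Real.rpow_pos_of_pos hl _
  have hd : 0 < p - q := by linarith
  refine ⟨T ^ q, (Real.rpow_pos_of_pos hT0 _).le, fun t ht => ?_⟩
  rcases le_or_gt t T with h1 | h1
  · have h2 : t ^ q ≤ T ^ q := Real.rpow_le_rpow ht h1 hq
    have h3 : 0 ≤ l * t ^ p := mul_nonneg hl.le (Real.rpow_nonneg ht _)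
    linarith
  · have ht0 : 0 < t := hT0.trans h1
    have h2 : T ^ (p - q) ≤ t ^ (p - q) := Real.rpow_le_rpow hT0.le h1.le hd.le
    have h3 : T ^ (p - q) = l⁻¹ := by
      rw [hT, ← Real.rpow_mul hl.le, neg_mul, inv_mul_cancel₀ hd.ne', Real.rpow_neg_one]
    rw [h3] at h2
    have h4 : t ^ p = t ^ (p - q) * t ^ q := by
      rw [← Real.rpow_add ht0]
      congr 1
      ring
    have h5 : 0 < t ^ q := Real.rpow_pos_of_pos ht0 _
    have h6 : 1 ≤ l * t ^ (p - q) := by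
      have := mul_le_mul_of_nonneg_left h2 hl.le
      rwa [mul_inv_cancel₀ hl.ne'] at this
    have h7 : 0 < T ^ q := Real.rpow_pos_of_pos hT0 _
    rw [h4]
    nlinarith [mul_le_mul_of_nonneg_right h6 h5.le]

/-- the equation tested with the difference to the boundary values -/
theorem pair_zero (hpair : PairStatement) {b : E n → E n → E n} {α β : ℝ}
    (hop : Op p volume b α β) {D : Set (E n)} (hD : IsOpen D) {Ψ : E n → ℝ} {v V : E n → E n}
    (hv : MemLp v (ENNReal.ofReal p) (volume.restrict D)) (hE : Eqn volume b D v)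
    (hH : H0 volume p D Ψ V) : ∫ y in D, ⟪b y (v y), V y⟫ = 0 := by
  have h1 := hpair n p volume b α β D v Ψ V hop hD hv hE hH
  have h2 := (hH.ae_eq_zero hop.hp hD.measurableSet).2
  rw [ae_restrict_iff' hD.measurableSet.compl] at h2
  rw [setIntegral_eq_integral_of_ae_compl_eq_zero]
  · exact h1
  · filter_upwards [h2] with x hx hxD
    rw [hx hxD, inner_zero_right]

theorem young {α β p x y : ℝ} (hα : 0 < α) (hβ : 0 < β) (hp : 1 < p) (hx : 0 ≤ x) (hy : 0 ≤ y) :
    β * x ^ (p - 1) * y ≤ α / 2 * x ^ p + α / 2 * ((2 * β / α) ^ p * y ^ p) := by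
  have hc : 0 < 2 * β / α := by positivity
  rw [← Real.mul_rpow hc.le hy]
  set z := 2 * β / α * y with hz
  have hz0 : 0 ≤ z := mul_nonneg hc.le hy
  have h1 : β * x ^ (p - 1) * y = α / 2 * (x ^ (p - 1) * z) := by
    rw [hz]
    field_simp
  have hpow : ∀ w : ℝ, 0 ≤ w → w ^ (p - 1) * w = w ^ p := by
    intro w hw
    have h2 := Real.rpow_add_one' hw (y := p - 1) (by linarith)
    rw [sub_add_cancel] at h2
    exact h2.symm
  have h2 : x ^ (p - 1) * z ≤ x ^ p + z ^ p := by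
    rcases le_total z x with h3 | h3
    · have h4 : x ^ (p - 1) * z ≤ x ^ (p - 1) * x :=
        mul_le_mul_of_nonneg_left h3 (Real.rpow_nonneg hx _)
      rw [hpow x hx] at h4
      have := Real.rpow_nonneg hz0 p
      linarith
    · have h4 : x ^ (p - 1) * z ≤ z ^ (p - 1) * z :=
        mul_le_mul_of_nonneg_right (Real.rpow_le_rpow hx h3 (by linarith)) hz0
      rw [hpow z hz0] at h4
      have := Real.rpow_nonneg hx p
      linarith
  rw [h1]
  nlinarith

theorem int_rpow {μ : Measure (E n)} {v : E n → E n} (hp : 1 < p)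
    (hv : MemLp v (ENNReal.ofReal p) μ) : Integrable (fun y => ‖v y‖ ^ p) μ := by
  have h1 := hv.integrable_norm_rpow (by simp; linarith) (by simp)
  rwa [ENNReal.toReal_ofReal (by linarith)] at h1

/-- the energy estimate -/
theorem energy (hpair : PairStatement) (hintg : IntgStatement) {b : E n → E n → E n} {α β : ℝ}
    (hop : Op p volume b α β) {D : Set (E n)} (hD : IsOpen D) (hDf : volume D ≠ ⊤)
    {g u : E n → ℝ} {v : E n → E n} (hg : Test univ g) {M : ℝ}
    (hgM : ∀ y ∈ D, ‖∇ g y‖ ≤ M) (hH : H0 volume p D (fun x => u x - g x) (fun x => v x - ∇ g x))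
    (hE : Eqn volume b D v) :
    MemLp v (ENNReal.ofReal p) volume ∧
      ∫ y in D, ‖v y‖ ^ p ≤ (2 * β / α) ^ p * M ^ p * volume.real D := by
  have hp := hop.hp
  have hα := hop.hα
  have hβ : 0 < β := hα.trans_le hop.hαβ
  have hv : MemLp v (ENNReal.ofReal p) volume := by
    have h1 := hH.2.1.add (hg.memLp_grad (μ := volume) (ENNReal.ofReal p))
    have h2 : ((fun x => v x - ∇ g x) + fun x => ∇ g x) = v := by
      funext x
      simp
    rwa [h2] at h1
  refine ⟨hv, ?_⟩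
  have hfin : IsFiniteMeasure (volume.restrict D) := ⟨by
    rw [Measure.restrict_apply_univ]
    exact lt_of_le_of_ne le_top hDf⟩
  have h0 := pair_zero hpair hop hD (hv.restrict D) hE hH
  have hi1 : Integrable (fun y => ⟪b y (v y), v y - ∇ g y⟫) (volume.restrict D) :=
    (hintg n p volume (volume.restrict D) b α β v (fun y => v y - ∇ g y) hop (hv.restrict D)
      (hH.2.1.restrict D)).1
  have hi2 : Integrable (fun y => ‖v y‖ ^ p) (volume.restrict D) := int_rpow hp (hv.restrict D)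
  have hpt : ∀ y ∈ D, α / 2 * ‖v y‖ ^ p ≤
      ⟪b y (v y), v y - ∇ g y⟫ + α / 2 * ((2 * β / α) ^ p * M ^ p) := by
    intro y hy
    have h1 := hop.ell y (v y)
    have h2 : ⟪b y (v y), ∇ g y⟫ ≤ β * ‖v y‖ ^ (p - 1) * ‖∇ g y‖ := by
      refine (real_inner_le_norm _ _).trans ?_
      exact mul_le_mul_of_nonneg_right (hop.bdd y (v y)) (norm_nonneg _)
    have h3 := young hα hβ hp (norm_nonneg (v y)) (norm_nonneg (∇ g y))
    have h4 : ‖∇ g y‖ ^ p ≤ M ^ p := Real.rpow_le_rpow (norm_nonneg _) (hgM y hy) (by linarith)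
    have h5 : 0 ≤ (2 * β / α) ^ p := Real.rpow_nonneg (by positivity) _
    have h6 : α / 2 * ((2 * β / α) ^ p * ‖∇ g y‖ ^ p) ≤ α / 2 * ((2 * β / α) ^ p * M ^ p) :=
      mul_le_mul_of_nonneg_left (mul_le_mul_of_nonneg_left h4 h5) (by linarith)
    rw [inner_sub_right]
    linarith
  have h1 : ∫ y in D, α / 2 * ‖v y‖ ^ p ≤
      ∫ y in D, (⟪b y (v y), v y - ∇ g y⟫ + α / 2 * ((2 * β / α) ^ p * M ^ p)) :=
    setIntegral_mono_on (hi2.const_mul _) (hi1.add (integrable_const _)) hD.measurableSet hpt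
  rw [integral_add hi1 (integrable_const _), h0, integral_const_mul, integral_const, zero_add] at h1
  simp only [measureReal_restrict_apply_univ, smul_eq_mul] at h1
  have h2 : α / 2 * ∫ y in D, ‖v y‖ ^ p ≤ α / 2 * ((2 * β / α) ^ p * M ^ p * volume.real D) := by
    linarith
  exact le_of_mul_le_mul_left h2 (by linarith)

theorem div_aux {t X : ℝ} (ht : 0 < t) (hX : 0 ≤ X) : t / (X + 1) * X ≤ t := by
  rw [div_mul_eq_mul_div, div_le_iff₀ (by linarith)]
  nlinarith

/-- the main estimate -/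
theorem mainest (hmonc : MoncStatement) (hpair : PairStatement) (hintg : IntgStatement)
    {a : E n → E n → E n} {α β : ℝ} (hop : Op p volume a α β) {z₀ : E n} (hleb : IsLeb a z₀)
    {s : ℝ} {u₀ : E n → ℝ} (hu₀ : ContDiff ℝ 1 u₀)
    (hdiv : ∀ φ : E n → ℝ, Test (ball 0 s) φ → ∫ y, ⟪a z₀ (∇ u₀ y), ∇ φ y⟫ = 0) {M : ℝ}
    (hM0 : 0 ≤ M) (hMb : ∀ y ∈ ball (0 : E n) s, ‖∇ u₀ y‖ ≤ M) {K : ℝ} (hK0 : 0 ≤ K) {ε : ℝ}
    (hε : 0 < ε) :
    ∃ δ₁ : ℝ, 0 < δ₁ ∧ ∀ᶠ r : ℝ in 𝓝[>] 0, ∀ (g : E n → ℝ) (u : E n → ℝ) (v : E n → E n),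
      Test univ g → (∀ y ∈ ball (0 : E n) s, ‖∇ g y - ∇ u₀ y‖ ≤ δ₁) →
      H0 volume p (ball 0 s) (fun x => u x - g x) (fun x => v x - ∇ g x) →
      Eqn volume (fun y ξ => a (z₀ + r • y) ξ) (ball 0 s) v →
      MemLp v (ENNReal.ofReal p) volume → ∫ y in ball (0 : E n) s, ‖v y‖ ^ p ≤ K →
      volume.real {y : E n | y ∈ ball 0 s ∧ ε ≤ ‖v y - ∇ u₀ y‖} ≤ ε := by
  have hp := hop.hp
  have hα := hop.hα
  have hβ : 0 < β := hα.trans_le hop.hαβ
  obtain ⟨c, hc, hc'⟩ := hmonc n p (a z₀) M ε (op_frz hop z₀) hε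
  set V := volume.real (ball (0 : E n) s) with hV
  have hV0 : 0 ≤ V := measureReal_nonneg
  have hMp : 0 ≤ M ^ (p - 1) := Real.rpow_nonneg hM0 _
  -- the parameters
  set X1 := β * (K + (1 + M ^ (p - 1)) * V) with hX1
  set X2 := K + (M + 2) * V with hX2
  set X3 := 2 * β * M ^ (p - 1) * K with hX3
  have hX10 : 0 ≤ X1 := by positivity
  have hX20 : 0 ≤ X2 := by positivity
  have hX30 : 0 ≤ X3 := by positivity
  set T := c / 2 * ε / 8 with hT
  have hT0 : 0 < T := by positivity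
  set δ₁ := min 1 (T / (X1 + 1)) with hδ₁
  have hδ₁0 : 0 < δ₁ := lt_min one_pos (by positivity)
  set ε₁ := min (c / (4 * ε)) (T / (X2 + 1)) with hε₁
  have hε₁0 : 0 < ε₁ := lt_min (by positivity) (by positivity)
  set l := T / (X3 + 1) with hl
  have hl0 : 0 < l := by positivity
  obtain ⟨C, hC0, hC⟩ := rpow_lam (q := 1) (p := p) (l := l) zero_le_one hp hl0
  set X4 := 2 * β * M ^ (p - 1) * (C + M + 1) with hX4
  have hX40 : 0 ≤ X4 := by positivity
  set κ := min (ε / 2) (T / (X4 + 1)) with hκ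
  have hκ0 : 0 < κ := lt_min (by positivity) (by positivity)
  have hk1 : δ₁ * X1 ≤ T :=
    (mul_le_mul_of_nonneg_right (min_le_right _ _) hX10).trans (div_aux hT0 hX10)
  have hk2 : ε₁ * X2 ≤ T :=
    (mul_le_mul_of_nonneg_right (min_le_right _ _) hX20).trans (div_aux hT0 hX20)
  have hk3 : l * X3 ≤ T := div_aux hT0 hX30
  have hk4 : κ * X4 ≤ T :=
    (mul_le_mul_of_nonneg_right (min_le_right _ _) hX40).trans (div_aux hT0 hX40)
  refine ⟨δ₁, hδ₁0, ?_⟩
  have hbad := (hleb s (M + ε) ε₁ hε₁0).eventually_lt_const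
    (ENNReal.ofReal_pos.2 hκ0)
  filter_upwards [hbad] with r hr g u v hg hgδ hH hE hv hvK
  set b : E n → E n → E n := fun y ξ => a (z₀ + r • y) ξ with hb
  have hopb : Op p volume b α β := op_scale hop z₀ r
  set Bad : Set (E n) := {y : E n | y ∈ ball 0 s ∧
    ∃ ξ : E n, ‖ξ‖ ≤ M + ε ∧ ε₁ ≤ ‖a (z₀ + r • y) ξ - a z₀ ξ‖} with hBad
  set B' := toMeasurable volume Bad with hB'
  have hBB' : Bad ⊆ B' := subset_toMeasurable _ _
  have hB'm : MeasurableSet B' := measurableSet_toMeasurable _ _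
  have hB'κ : volume.real B' ≤ κ := by
    rw [measureReal_def, hB', measure_toMeasurable]
    exact ENNReal.toReal_le_of_le_ofReal hκ0.le hr.le
  have hB'f : volume B' ≠ ⊤ := by
    rw [hB', measure_toMeasurable]
    exact (hr.trans ENNReal.ofReal_lt_top).ne
  have hfin : IsFiniteMeasure (volume.restrict (ball (0 : E n) s)) := ⟨by
    rw [Measure.restrict_apply_univ]
    exact measure_ball_lt_top⟩
  -- the two equations
  have hI1 := pair_zero hpair hopb isOpen_ball (hv.restrict _) hE hH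
  have hu0c : Continuous fun y => ∇ u₀ y := by
    have h1 : Continuous (fderiv ℝ u₀) := hu₀.continuous_fderiv (by simp)
    exact (InnerProductSpace.toDual ℝ (E n)).symm.continuous.comp h1
  have hu0L : MemLp (fun y => ∇ u₀ y) (ENNReal.ofReal p) (volume.restrict (ball (0 : E n) s)) := by
    refine MemLp.of_bound hu0c.aestronglyMeasurable M ?_
    exact (ae_restrict_iff' measurableSet_ball).2 (Eventually.of_forall hMb)
  have hI2 := pair_zero hpair (op_frozen hop z₀) isOpen_ball hu0L hdiv hH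
  have hi1 : Integrable (fun y => ⟪b y (v y), v y - ∇ g y⟫) (volume.restrict (ball (0 : E n) s)) :=
    (hintg n p volume _ b α β v (fun y => v y - ∇ g y) hopb (hv.restrict _)
      (hH.2.1.restrict _)).1
  have hi2 : Integrable (fun y => ⟪a z₀ (∇ u₀ y), v y - ∇ g y⟫)
      (volume.restrict (ball (0 : E n) s)) :=
    (hintg n p volume _ (fun _ ξ => a z₀ ξ) α β (fun y => ∇ u₀ y) (fun y => v y - ∇ g y)
      (op_frozen hop z₀) hu0L (hH.2.1.restrict _)).1
  have hi3 : Integrable (fun y => ‖v y‖ ^ p) (volume.restrict (ball (0 : E n) s)) :=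
    int_rpow hp (hv.restrict _)
  have hi4 : Integrable (B'.indicator fun _ => (1 : ℝ)) (volume.restrict (ball (0 : E n) s)) :=
    (integrable_const (1 : ℝ)).indicator hB'm
  set c1 := δ₁ * β + ε₁ + 2 * β * M ^ (p - 1) * l with hc1
  set c2 := δ₁ * β * (1 + M ^ (p - 1)) + ε₁ * (M + 2) with hc2
  have hc10 : 0 ≤ c1 := by positivity
  set f : E n → ℝ := fun y => ⟪b y (v y), v y - ∇ g y⟫ - ⟪a z₀ (∇ u₀ y), v y - ∇ g y⟫ +
    c1 * ‖v y‖ ^ p + c2 + X4 * B'.indicator (fun _ => (1 : ℝ)) y with hf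
  have hfi : Integrable f (volume.restrict (ball (0 : E n) s)) :=
    (((hi1.sub hi2).add (hi3.const_mul c1)).add (integrable_const c2)).add (hi4.const_mul X4)
  have hfint : ∫ y in ball (0 : E n) s, f y ≤ c / 2 * (ε / 2) := by
    have h1 : ∫ y in ball (0 : E n) s, f y = c1 * (∫ y in ball (0 : E n) s, ‖v y‖ ^ p) + c2 * V +
        X4 * volume.real (B' ∩ ball (0 : E n) s) := by
      have hj1 : Integrable (fun y => ⟪b y (v y), v y - ∇ g y⟫ - ⟪a z₀ (∇ u₀ y), v y - ∇ g y⟫)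
        (volume.restrict (ball (0 : E n) s)) := hi1.sub hi2
      have hj2 : Integrable (fun y => ⟪b y (v y), v y - ∇ g y⟫ - ⟪a z₀ (∇ u₀ y), v y - ∇ g y⟫ +
        c1 * ‖v y‖ ^ p) (volume.restrict (ball (0 : E n) s)) := hj1.add (hi3.const_mul c1)
      have hj3 : Integrable (fun y => ⟪b y (v y), v y - ∇ g y⟫ - ⟪a z₀ (∇ u₀ y), v y - ∇ g y⟫ +
        c1 * ‖v y‖ ^ p + c2) (volume.restrict (ball (0 : E n) s)) := hj2.add (integrable_const c2)
      rw [hf, integral_add hj3 (hi4.const_mul X4), integral_add hj2 (integrable_const c2),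
        integral_add hj1 (hi3.const_mul c1), integral_sub hi1 hi2, hI1, hI2, integral_const_mul,
        integral_const_mul, integral_const, integral_indicator hB'm, integral_const,
        Measure.restrict_restrict hB'm]
      simp only [measureReal_restrict_apply_univ, smul_eq_mul]
      ring
    have h2 : volume.real (B' ∩ ball (0 : E n) s) ≤ κ :=
      (measureReal_mono inter_subset_left hB'f).trans hB'κ
    rw [h1]
    have h3 : c1 * (∫ y in ball (0 : E n) s, ‖v y‖ ^ p) ≤ c1 * K :=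
      mul_le_mul_of_nonneg_left hvK hc10
    have h4 : X4 * volume.real (B' ∩ ball (0 : E n) s) ≤ X4 * κ :=
      mul_le_mul_of_nonneg_left h2 hX40
    have h5 : c1 * K + c2 * V = δ₁ * X1 + ε₁ * X2 + l * X3 := by
      rw [hc1, hc2, hX1, hX2, hX3]
      ring
    have h6 : c / 2 * (ε / 2) = T + T + T + T := by
      rw [hT]
      ring
    linarith
  -- pointwise bounds
  have hkey : ∀ y ∈ ball (0 : E n) s,
      ⟪b y (v y) - b y (∇ u₀ y), v y - ∇ u₀ y⟫ ≤ f y := by
    intro y hy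
    have hξ := hMb y hy
    have hγ := hgδ y hy
    have hδ1 : δ₁ ≤ 1 := min_le_left _ _
    set ζ := v y with hζ
    set ξ := ∇ u₀ y with hξd
    set γ := ∇ g y with hγd
    have hsplit : ⟪b y ζ, ζ - γ⟫ - ⟪a z₀ ξ, ζ - γ⟫ = ⟪b y ζ - b y ξ, ζ - ξ⟫ +
        ⟪b y ζ - b y ξ, ξ - γ⟫ + ⟪b y ξ - a z₀ ξ, ζ - γ⟫ := by
      simp only [inner_sub_left, inner_sub_right]
      ring
    have hb1 : ‖b y ζ‖ ≤ β * ‖ζ‖ ^ (p - 1) := hopb.bdd y ζ
    have hb2 : ‖b y ξ‖ ≤ β * M ^ (p - 1) := (hopb.bdd y ξ).trans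
      (mul_le_mul_of_nonneg_left (Real.rpow_le_rpow (norm_nonneg _) hξ (by linarith)) hβ.le)
    have hb3 : ‖a z₀ ξ‖ ≤ β * M ^ (p - 1) := (hop.bdd z₀ ξ).trans
      (mul_le_mul_of_nonneg_left (Real.rpow_le_rpow (norm_nonneg _) hξ (by linarith)) hβ.le)
    have hpow : ‖ζ‖ ^ (p - 1) ≤ 1 + ‖ζ‖ ^ p := by
      rcases le_total ‖ζ‖ 1 with h1 | h1
      · have h2 := Real.rpow_le_one (norm_nonneg ζ) h1 (by linarith : 0 ≤ p - 1)
        have h3 := Real.rpow_nonneg (norm_nonneg ζ) p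
        linarith
      · have h2 := Real.rpow_le_rpow_of_exponent_le h1 (by linarith : p - 1 ≤ p)
        linarith
    have hpow1 : ‖ζ‖ ≤ 1 + ‖ζ‖ ^ p := by
      rcases le_total ‖ζ‖ 1 with h1 | h1
      · have h3 := Real.rpow_nonneg (norm_nonneg ζ) p
        linarith
      · have h2 := Real.rpow_le_rpow_of_exponent_le h1 hp.le
        rw [Real.rpow_one] at h2
        linarith
    have he1 : -(δ₁ * β * (‖ζ‖ ^ p + (1 + M ^ (p - 1)))) ≤ ⟪b y ζ - b y ξ, ξ - γ⟫ := by
      have h1 : |⟪b y ζ - b y ξ, ξ - γ⟫| ≤ (β * ‖ζ‖ ^ (p - 1) + β * M ^ (p - 1)) * δ₁ := by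
        refine (abs_real_inner_le_norm _ _).trans ?_
        refine mul_le_mul ((norm_sub_le _ _).trans (add_le_add hb1 hb2)) ?_ (norm_nonneg _)
          (by positivity)
        rw [norm_sub_rev]
        exact hγ
      have h2 := (abs_le.1 h1).1
      have h3 : (β * ‖ζ‖ ^ (p - 1) + β * M ^ (p - 1)) * δ₁ ≤
          δ₁ * β * (‖ζ‖ ^ p + (1 + M ^ (p - 1))) := by
        have h4 : 0 ≤ δ₁ * β := by positivity
        nlinarith [mul_le_mul_of_nonneg_left hpow h4]
      linarith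
    have hζγ : ‖ζ - γ‖ ≤ ‖ζ‖ + (M + 1) := by
      have h1 : ‖γ‖ ≤ M + 1 := by
        calc ‖γ‖ = ‖(γ - ξ) + ξ‖ := by rw [sub_add_cancel]
          _ ≤ ‖γ - ξ‖ + ‖ξ‖ := norm_add_le _ _
          _ ≤ M + 1 := by linarith
      exact (norm_sub_le _ _).trans (by linarith)
    have hI0 : 0 ≤ B'.indicator (fun _ => (1 : ℝ)) y := indicator_nonneg (fun _ _ => zero_le_one) _
    have hzp : 0 ≤ ‖ζ‖ ^ p := Real.rpow_nonneg (norm_nonneg ζ) p
    have he2 : -(ε₁ * (‖ζ‖ ^ p + (M + 2)) + 2 * β * M ^ (p - 1) * (l * ‖ζ‖ ^ p) +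
        X4 * B'.indicator (fun _ => (1 : ℝ)) y) ≤ ⟪b y ξ - a z₀ ξ, ζ - γ⟫ := by
      have h1 := abs_real_inner_le_norm (b y ξ - a z₀ ξ) (ζ - γ)
      have h2 := (abs_le.1 (le_refl |⟪b y ξ - a z₀ ξ, ζ - γ⟫|)).1
      by_cases hyB : y ∈ Bad
      · have h3 : B'.indicator (fun _ => (1 : ℝ)) y = 1 := indicator_of_mem (hBB' hyB) _
        have h4 : ‖b y ξ - a z₀ ξ‖ ≤ 2 * β * M ^ (p - 1) := by
          refine (norm_sub_le _ _).trans ?_
          linarith
        have h5 : ‖ζ - γ‖ ≤ l * ‖ζ‖ ^ p + (C + M + 1) := by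
          have h6 := hC ‖ζ‖ (norm_nonneg _)
          rw [Real.rpow_one] at h6
          linarith
        have h6 : ‖b y ξ - a z₀ ξ‖ * ‖ζ - γ‖ ≤
            2 * β * M ^ (p - 1) * (l * ‖ζ‖ ^ p + (C + M + 1)) :=
          mul_le_mul h4 h5 (norm_nonneg _) (by positivity)
        have h7 : 0 ≤ ε₁ * (‖ζ‖ ^ p + (M + 2)) := by positivity
        rw [h3, hX4]
        linarith
      · have h4 : ‖b y ξ - a z₀ ξ‖ ≤ ε₁ := by
          by_contra hcon
          refine hyB ⟨hy, ξ, by linarith, ?_⟩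
          exact (not_le.1 hcon).le
        have h5 : ‖ζ - γ‖ ≤ ‖ζ‖ ^ p + (M + 2) := by linarith
        have h6 : ‖b y ξ - a z₀ ξ‖ * ‖ζ - γ‖ ≤ ε₁ * (‖ζ‖ ^ p + (M + 2)) :=
          mul_le_mul h4 h5 (norm_nonneg _) hε₁0.le
        have h7 : 0 ≤ 2 * β * M ^ (p - 1) * (l * ‖ζ‖ ^ p) := by positivity
        have h8 : 0 ≤ X4 * B'.indicator (fun _ => (1 : ℝ)) y := mul_nonneg hX40 hI0
        linarith
    have hfy : f y = (⟪b y ζ, ζ - γ⟫ - ⟪a z₀ ξ, ζ - γ⟫) + c1 * ‖ζ‖ ^ p + c2 +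
        X4 * B'.indicator (fun _ => (1 : ℝ)) y := rfl
    have hexp : c1 * ‖ζ‖ ^ p + c2 = δ₁ * β * (‖ζ‖ ^ p + (1 + M ^ (p - 1))) +
        (ε₁ * (‖ζ‖ ^ p + (M + 2)) + 2 * β * M ^ (p - 1) * (l * ‖ζ‖ ^ p)) := by
      rw [hc1, hc2]
      ring
    rw [hfy, hsplit]
    linarith
  have hmono0 : ∀ y, 0 ≤ ⟪b y (v y) - b y (∇ u₀ y), v y - ∇ u₀ y⟫ := by
    intro y
    by_cases h1 : v y = ∇ u₀ y
    · rw [h1]
      simp
    · exact (hopb.mono y _ _ h1).le
  have hbig : ∀ y ∈ ball (0 : E n) s, y ∉ Bad → ε ≤ ‖v y - ∇ u₀ y‖ →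
      c / 2 ≤ ⟪b y (v y) - b y (∇ u₀ y), v y - ∇ u₀ y⟫ := by
    intro y hy hyB hge
    have hξ := hMb y hy
    set ζ := v y with hζ
    set ξ := ∇ u₀ y with hξd
    set N := ‖ζ - ξ‖ with hN
    have hN0 : 0 < N := hε.trans_le hge
    set t := ε / N with ht
    have ht0 : 0 < t := by positivity
    have ht1 : t ≤ 1 := (div_le_one hN0).2 hge
    set ζ' := ξ + t • (ζ - ξ) with hζ'
    have h1 : ζ' - ξ = t • (ζ - ξ) := by
      rw [hζ']
      abel
    have h2 : ‖ζ' - ξ‖ = ε := by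
      rw [h1, norm_smul, Real.norm_eq_abs, abs_of_pos ht0, ht, div_mul_cancel₀ _ hN0.ne']
    have h3 : ‖ζ'‖ ≤ M + ε := by
      calc ‖ζ'‖ = ‖ξ + (ζ' - ξ)‖ := by rw [add_sub_cancel]
        _ ≤ ‖ξ‖ + ‖ζ' - ξ‖ := norm_add_le _ _
        _ ≤ M + ε := by linarith
    have hbad1 : ∀ η : E n, ‖η‖ ≤ M + ε → ‖b y η - a z₀ η‖ ≤ ε₁ := by
      intro η hη
      by_contra hcon
      exact hyB ⟨hy, η, hη, (not_le.1 hcon).le⟩
    have h4 := hc' ξ ζ' hξ (by rw [h2])
    have h5 : ⟪b y ζ' - b y ξ, ζ' - ξ⟫ = ⟪a z₀ ζ' - a z₀ ξ, ζ' - ξ⟫ +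
        ⟪b y ζ' - a z₀ ζ', ζ' - ξ⟫ - ⟪b y ξ - a z₀ ξ, ζ' - ξ⟫ := by
      simp only [inner_sub_left]
      ring
    have h6 : |⟪b y ζ' - a z₀ ζ', ζ' - ξ⟫| ≤ ε₁ * ε := by
      refine (abs_real_inner_le_norm _ _).trans ?_
      rw [h2]
      exact mul_le_mul_of_nonneg_right (hbad1 _ h3) hε.le
    have h7 : |⟪b y ξ - a z₀ ξ, ζ' - ξ⟫| ≤ ε₁ * ε := by
      refine (abs_real_inner_le_norm _ _).trans ?_
      rw [h2]
      exact mul_le_mul_of_nonneg_right (hbad1 _ (by linarith)) hε.le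
    have h8 : ε₁ * ε ≤ c / 4 := by
      have h9 : ε₁ ≤ c / (4 * ε) := min_le_left _ _
      have h10 := mul_le_mul_of_nonneg_right h9 hε.le
      have h11 : c / (4 * ε) * ε = c / 4 := by field_simp
      linarith
    have h9 : c / 2 ≤ ⟪b y ζ' - b y ξ, ζ' - ξ⟫ := by
      rw [h5]
      have := (abs_le.1 h6).1
      have := (abs_le.1 h7).2
      linarith
    rw [h1, real_inner_smul_right] at h9
    have h10 : 0 ≤ ⟪b y ζ - b y ζ', ζ - ξ⟫ := by
      rcases ht1.eq_or_lt with h11 | h11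
      · have h12 : ζ' = ζ := by
          rw [hζ', h11, one_smul]
          abel
        rw [h12, sub_self, inner_zero_left]
      · have h12 : ζ ≠ ζ' := by
          intro h13
          have h14 : ‖ζ - ξ‖ = ε := by
            nth_rewrite 1 [h13]
            exact h2
          have h15 : t = 1 := by
            rw [ht, hN, h14, div_self hε.ne']
          linarith
        have h13 := hopb.mono y ζ ζ' h12
        have h14 : ζ - ζ' = (1 - t) • (ζ - ξ) := by
          rw [hζ', sub_smul, one_smul]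
          abel
        rw [h14, real_inner_smul_right] at h13
        exact ((mul_pos_iff_of_pos_left (by linarith : 0 < 1 - t)).1 h13).le
    have h11 : ⟪b y ζ - b y ξ, ζ - ξ⟫ = ⟪b y ζ - b y ζ', ζ - ξ⟫ + ⟪b y ζ' - b y ξ, ζ - ξ⟫ := by
      simp only [inner_sub_left]
      ring
    have h12 : 0 < ⟪b y ζ' - b y ξ, ζ - ξ⟫ := by
      by_contra hcon
      have := mul_nonpos_of_nonneg_of_nonpos ht0.le (not_lt.1 hcon)
      linarith
    have h13 : t * ⟪b y ζ' - b y ξ, ζ - ξ⟫ ≤ ⟪b y ζ' - b y ξ, ζ - ξ⟫ := by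
      nlinarith
    rw [h11]
    linarith
  have hmarkov := mul_meas_ge_le_integral_of_nonneg (μ := volume.restrict (ball (0 : E n) s))
    (f := f) ((ae_restrict_iff' measurableSet_ball).2
      (Eventually.of_forall fun y hy => (hmono0 y).trans (hkey y hy))) hfi (c / 2)
  have h1 : (volume.restrict (ball (0 : E n) s)).real {y | c / 2 ≤ f y} ≤ ε / 2 := by
    have h2 := hmarkov.trans hfint
    exact le_of_mul_le_mul_left h2 (by positivity)
  have h2 : volume.real ({y | c / 2 ≤ f y} ∩ ball (0 : E n) s) ≤ ε / 2 := by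
    refine le_trans ?_ h1
    rw [measureReal_def, measureReal_def]
    refine ENNReal.toReal_mono (measure_ne_top _ _) ?_
    exact Measure.le_restrict_apply _ _
  have h3 : {y : E n | y ∈ ball 0 s ∧ ε ≤ ‖v y - ∇ u₀ y‖} ⊆
      B' ∪ ({y | c / 2 ≤ f y} ∩ ball (0 : E n) s) := by
    rintro y ⟨hy, hge⟩
    by_cases hyB : y ∈ Bad
    · exact Or.inl (hBB' hyB)
    · exact Or.inr ⟨(hbig y hy hyB hge).trans (hkey y hy), hy⟩
  have h4 : volume ({y | c / 2 ≤ f y} ∩ ball (0 : E n) s) ≠ ⊤ :=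
    ((measure_mono inter_subset_right).trans_lt measure_ball_lt_top).ne
  calc volume.real {y : E n | y ∈ ball 0 s ∧ ε ≤ ‖v y - ∇ u₀ y‖}
      ≤ volume.real (B' ∪ ({y | c / 2 ≤ f y} ∩ ball (0 : E n) s)) :=
        measureReal_mono h3 (measure_union_ne_top hB'f h4)
    _ ≤ volume.real B' + volume.real ({y | c / 2 ≤ f y} ∩ ball (0 : E n) s) :=
        measureReal_union_le _ _
    _ ≤ ε := by
        have : κ ≤ ε / 2 := min_le_left _ _
        linarith

/-! ### Approximation in `C¹` -/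

theorem c1_approx {u₀ : E n → ℝ} (hu₀ : ContDiff ℝ 1 u₀) {s δ : ℝ} (hs : 0 < s) (hδ : 0 < δ) :
    ∃ g : E n → ℝ, Test univ g ∧
      ∀ y ∈ ball (0 : E n) s, |g y - u₀ y| ≤ δ ∧ ‖∇ g y - ∇ u₀ y‖ ≤ δ := by
  set χ : ContDiffBump (0 : E n) := ⟨s + 1, s + 2, by positivity, by linarith⟩ with hχ
  set u₁ : E n → ℝ := fun x => χ x * u₀ x with hu₁
  have hu₁c : ContDiff ℝ 1 u₁ := χ.contDiff.mul hu₀
  have hu₁s : HasCompactSupport u₁ := χ.hasCompactSupport.mul_right
  have heq : ∀ y ∈ ball (0 : E n) s, u₁ =ᶠ[𝓝 y] u₀ := by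
    intro y hy
    have h1 : ball (0 : E n) (s + 1) ∈ 𝓝 y := isOpen_ball.mem_nhds
      (ball_subset_ball (by linarith) hy)
    filter_upwards [h1] with x hx
    simp only [hu₁]
    rw [χ.one_of_mem_closedBall (ball_subset_closedBall hx), one_mul]
  -- uniform continuity
  have huc : UniformContinuous u₁ := hu₁s.uniformContinuous_of_continuous hu₁c.continuous
  have hfc : Continuous (fderiv ℝ u₁) := hu₁c.continuous_fderiv (by simp)
  have hfs : HasCompactSupport (fderiv ℝ u₁) := hu₁s.fderiv ℝ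
  have hfuc : UniformContinuous (fderiv ℝ u₁) := hfs.uniformContinuous_of_continuous hfc
  obtain ⟨η₁, hη₁, h1⟩ := Metric.uniformContinuous_iff.1 huc δ hδ
  obtain ⟨η₂, hη₂, h2⟩ := Metric.uniformContinuous_iff.1 hfuc δ hδ
  set η := min η₁ η₂ with hη
  have hη0 : 0 < η := lt_min hη₁ hη₂
  set φ : ContDiffBump (0 : E n) := ⟨η / 2, η, by positivity, by linarith⟩ with hφ
  set g : E n → ℝ := φ.normed volume ⋆[ContinuousLinearMap.lsmul ℝ ℝ, volume] u₁ with hg
  have hg1 : ContDiff ℝ ∞ g := by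
    refine φ.hasCompactSupport_normed.contDiff_convolution_left _ φ.contDiff_normed ?_
    exact hu₁c.continuous.locallyIntegrable
  have hg2 : HasCompactSupport g := HasCompactSupport.convolution _ φ.hasCompactSupport_normed hu₁s
  refine ⟨g, ⟨hg1, hg2, subset_univ _⟩, fun y hy => ?_⟩
  have hy1 := heq y hy
  constructor
  · rw [← hy1.eq_of_nhds, ← Real.dist_eq]
    refine ContDiffBump.dist_normed_convolution_le hu₁c.continuous.aestronglyMeasurable ?_
    intro x hx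
    exact (h1 (lt_of_lt_of_le hx (min_le_left _ _))).le
  · have h3 : HasFDerivAt g
        ((φ.normed volume ⋆[(ContinuousLinearMap.lsmul ℝ ℝ).precompR (E n), volume]
          fderiv ℝ u₁) y) y :=
      hu₁s.hasFDerivAt_convolution_right _
        (φ.contDiff_normed (n := 0)).continuous.locallyIntegrable hu₁c y
    have h4 : ((φ.normed volume ⋆[(ContinuousLinearMap.lsmul ℝ ℝ).precompR (E n), volume]
          fderiv ℝ u₁) y) = (φ.normed volume ⋆[ContinuousLinearMap.lsmul ℝ ℝ, volume]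
            fderiv ℝ u₁) y := by
      rw [convolution_def, convolution_def]
      refine integral_congr_ae (Eventually.of_forall fun t => ?_)
      ext w
      simp [ContinuousLinearMap.precompR_apply]
    have h5 : ∇ g y - ∇ u₀ y = (InnerProductSpace.toDual ℝ (E n)).symm
        (fderiv ℝ g y - fderiv ℝ u₁ y) := by
      rw [map_sub, ← grad_eq, ← grad_eq, grad_eq u₁, grad_eq u₀, hy1.fderiv_eq]
    rw [h5, LinearIsometryEquiv.norm_map, h3.fderiv, h4, ← dist_eq_norm]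
    refine ContDiffBump.dist_normed_convolution_le hfc.aestronglyMeasurable ?_
    intro x hx
    exact (h2 (lt_of_lt_of_le hx (min_le_right _ _))).le

/-! ### Change of the exponent -/

theorem eLpNorm_zero_out {F : Type} [NormedAddCommGroup F] {D : Set (E n)}
    (hD : MeasurableSet D) {f : E n → F} (h : ∀ᵐ x ∂(volume.restrict Dᶜ), f x = 0) (q : ℝ≥0∞) :
    eLpNorm f q volume = eLpNorm f q (volume.restrict D) := by
  rw [← eLpNorm_indicator_eq_eLpNorm_restrict hD]
  refine eLpNorm_congr_ae ?_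
  rw [ae_restrict_iff' hD.compl] at h
  filter_upwards [h] with x hx
  by_cases hxD : x ∈ D
  · rw [indicator_of_mem hxD]
  · rw [indicator_of_notMem hxD, hx hxD]

theorem h0_exp {q : ℝ} (hq : 1 < q) (hqp : q ≤ p) {D : Set (E n)} (hD : IsOpen D)
    (hDf : volume D ≠ ⊤) {u : E n → ℝ} {v : E n → E n} (h : H0 volume p D u v) :
    H0 volume q D u v := by
  have hz := h.ae_eq_zero (hq.trans_le hqp) hD.measurableSet
  obtain ⟨h1, h2, ψ, h3, h4, h5⟩ := h
  have hpq : ENNReal.ofReal q ≤ ENNReal.ofReal p := ENNReal.ofReal_le_ofReal hqp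
  have hfin : IsFiniteMeasure (volume.restrict D) := ⟨by
    rw [Measure.restrict_apply_univ]
    exact lt_of_le_of_ne le_top hDf⟩
  have hmem : ∀ {F : Type} [NormedAddCommGroup F] {f : E n → F},
      MemLp f (ENNReal.ofReal p) volume → (∀ᵐ x ∂(volume.restrict Dᶜ), f x = 0) →
      MemLp f (ENNReal.ofReal q) volume := by
    intro F _ f hf hf0
    refine ⟨hf.1, ?_⟩
    rw [eLpNorm_zero_out hD.measurableSet hf0]
    exact ((hf.restrict D).mono_exponent hpq).2
  set c : ℝ≥0∞ := (volume.restrict D) univ ^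
    (1 / (ENNReal.ofReal q).toReal - 1 / (ENNReal.ofReal p).toReal) with hc
  have hcf : c ≠ ⊤ := by
    refine ENNReal.rpow_ne_top_of_nonneg ?_ (measure_ne_top _ _)
    rw [ENNReal.toReal_ofReal (by linarith), ENNReal.toReal_ofReal (by linarith)]
    have := one_div_le_one_div_of_le (by linarith : 0 < q) hqp
    linarith
  have hle : ∀ {F : Type} [NormedAddCommGroup F] {f : E n → F},
      AEStronglyMeasurable f volume → (∀ᵐ x ∂(volume.restrict Dᶜ), f x = 0) →
      eLpNorm f (ENNReal.ofReal q) volume ≤ eLpNorm f (ENNReal.ofReal p) volume * c := by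
    intro F _ f hf hf0
    rw [eLpNorm_zero_out hD.measurableSet hf0, eLpNorm_zero_out hD.measurableSet hf0]
    exact eLpNorm_le_eLpNorm_mul_rpow_measure_univ hpq (hf.mono_measure Measure.restrict_le_self)
  have hout : ∀ i, ∀ x ∈ Dᶜ, x ∉ tsupport (ψ i) := fun i x hx hx' => hx ((h3 i).2.2 hx')
  refine ⟨hmem h1 hz.1, hmem h2 hz.2, ψ, h3, ?_, ?_⟩
  · have h6 : Tendsto (fun i => eLpNorm (fun x => ψ i x - u x) (ENNReal.ofReal p) volume * c)
        atTop (𝓝 (0 * c)) := ENNReal.Tendsto.mul_const h4 (Or.inr hcf)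
    rw [zero_mul] at h6
    refine tendsto_of_tendsto_of_tendsto_of_le_of_le tendsto_const_nhds h6 (fun _ => bot_le)
      fun i => ?_
    refine hle ((h3 i).1.continuous.aestronglyMeasurable.sub h1.1) ?_
    have h7 := hz.1
    rw [ae_restrict_iff' hD.measurableSet.compl] at h7 ⊢
    filter_upwards [h7] with x hx hxD
    rw [hx hxD, image_eq_zero_of_notMem_tsupport (hout i x hxD), sub_zero]
  · have h6 : Tendsto (fun i => eLpNorm (fun x => ∇ (ψ i) x - v x) (ENNReal.ofReal p) volume * c)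
        atTop (𝓝 (0 * c)) := ENNReal.Tendsto.mul_const h5 (Or.inr hcf)
    rw [zero_mul] at h6
    refine tendsto_of_tendsto_of_tendsto_of_le_of_le tendsto_const_nhds h6 (fun _ => bot_le)
      fun i => ?_
    refine hle ((continuous_grad (h3 i).1).aestronglyMeasurable.sub h2.1) ?_
    have h7 := hz.2
    rw [ae_restrict_iff' hD.measurableSet.compl] at h7 ⊢
    filter_upwards [h7] with x hx hxD
    rw [hx hxD, grad_eq_zero_of_notMem (hout i x hxD), sub_zero]

theorem h0_congr {D : Set (E n)} {u u' : E n → ℝ} {v : E n → E n} (h : H0 volume p D u v)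
    (hu : u' =ᵐ[volume] u) : H0 volume p D u' v := by
  obtain ⟨h1, h2, ψ, h3, h4, h5⟩ := h
  refine ⟨(memLp_congr_ae hu).2 h1, h2, ψ, h3, ?_, h5⟩
  refine h4.congr fun i => ?_
  refine eLpNorm_congr_ae ?_
  filter_upwards [hu] with x hx
  rw [hx]

theorem add_rpow_le {q x y : ℝ} (hq : 0 ≤ q) (hx : 0 ≤ x) (hy : 0 ≤ y) :
    (x + y) ^ q ≤ 2 ^ q * (x ^ q + y ^ q) := by
  have hx' := Real.rpow_nonneg hx q
  have hy' := Real.rpow_nonneg hy q
  have h2 : (0 : ℝ) < 2 ^ q := Real.rpow_pos_of_pos two_pos _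
  rcases le_total x y with h | h
  · have h1 : (x + y) ^ q ≤ (2 * y) ^ q :=
      Real.rpow_le_rpow (add_nonneg hx hy) (by linarith) hq
    rw [Real.mul_rpow two_pos.le hy] at h1
    nlinarith
  · have h1 : (x + y) ^ q ≤ (2 * x) ^ q :=
      Real.rpow_le_rpow (add_nonneg hx hy) (by linarith) hq
    rw [Real.mul_rpow two_pos.le hx] at h1
    nlinarith

/-- DIRAPP -/
theorem dirapp (hh0c : H0cStatement) (hmonc : MoncStatement) (hdir : DirStatement)
    (hintg : IntgStatement) (hpair : PairStatement) : DirappStatement := by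
  intro n p a α β z₀ s u₀ hn hnp hop hleb hs hu₀ hdiv δ hδ
  have hp := hop.hp
  have hα := hop.hα
  have hβ : 0 < β := hα.trans_le hop.hαβ
  have hn1 : (1 : ℝ) ≤ n := by exact_mod_cast (by omega : 1 ≤ n)
  set q : ℝ := ((n : ℝ) + p) / 2 with hq
  have hnq : (n : ℝ) < q := by linarith
  have hqp : q < p := by linarith
  have hq1 : 1 < q := by linarith
  obtain ⟨C, hC0, hC⟩ := hh0c n q (by omega) hnq
  set V := volume.real (ball (0 : E n) s) with hV
  have hV0 : 0 ≤ V := measureReal_nonneg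
  -- the bound of the gradient
  have hu0c : Continuous fun y => ∇ u₀ y := by
    have h1 : Continuous (fderiv ℝ u₀) := hu₀.continuous_fderiv (by simp)
    exact (InnerProductSpace.toDual ℝ (E n)).symm.continuous.comp h1
  obtain ⟨M, hM⟩ := (isCompact_closedBall (0 : E n) s).exists_bound_of_continuousOn
    hu0c.continuousOn
  have hM0 : 0 ≤ M := (norm_nonneg _).trans (hM 0 (mem_closedBall_self hs.le))
  have hMb : ∀ y ∈ ball (0 : E n) s, ‖∇ u₀ y‖ ≤ M := fun y hy => hM y (ball_subset_closedBall hy)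
  set K := (2 * β / α) ^ p * (M + 1) ^ p * V with hK
  have hK0 : 0 ≤ K := by positivity
  -- the parameters
  set c := C * s ^ (1 - (n : ℝ) / q) with hc
  have hc0 : 0 < c := mul_pos hC0 (Real.rpow_pos_of_pos hs _)
  set κ := (δ / (2 * c)) ^ q with hκ
  have hκ0 : 0 < κ := Real.rpow_pos_of_pos (by positivity) _
  have h2q : (0 : ℝ) < 2 ^ q := Real.rpow_pos_of_pos two_pos _
  set l := κ / 3 / (2 ^ q * K + 1) with hl
  have hl0 : 0 < l := by positivity
  obtain ⟨Cl, hCl0, hCl⟩ := rpow_lam (q := q) (p := p) (l := l) (by linarith) hqp hl0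
  set X := 2 ^ q * (Cl + (M + 1) ^ q) with hX
  have hX0 : 0 ≤ X := by positivity
  set ε := min (1 / 2) (min (κ / 3 / (X + 1)) (κ / 3 / (2 * V + 1))) with hε
  have hε0 : 0 < ε := lt_min (by norm_num) (lt_min (by positivity) (by positivity))
  have hεh : ε ≤ 1 / 2 := min_le_left _ _
  have hεX : ε * X ≤ κ / 3 := (mul_le_mul_of_nonneg_right
    ((min_le_right _ _).trans (min_le_left _ _)) hX0).trans (div_aux (by positivity) hX0)
  have hεV : ε * (2 * V) ≤ κ / 3 := (mul_le_mul_of_nonneg_right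
    ((min_le_right _ _).trans (min_le_right _ _)) (by positivity)).trans
      (div_aux (by positivity) (by positivity))
  have hlK : l * (2 ^ q * K) ≤ κ / 3 := div_aux (by positivity) (by positivity)
  obtain ⟨δ₁, hδ₁, hmain⟩ := mainest hmonc hpair hintg hop hleb hu₀ hdiv hM0 hMb hK0 hε0
  obtain ⟨g, hg, hgu⟩ := c1_approx hu₀ hs
    (lt_min (lt_min hδ₁ hε0) (by positivity : 0 < δ / 2))
  have hgM : ∀ y ∈ ball (0 : E n) s, ‖∇ g y‖ ≤ M + 1 := by
    intro y hy
    have h1 : ‖∇ g y - ∇ u₀ y‖ ≤ ε := (hgu y hy).2.trans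
      ((min_le_left _ _).trans (min_le_right _ _))
    have h2 := hMb y hy
    calc ‖∇ g y‖ = ‖(∇ g y - ∇ u₀ y) + ∇ u₀ y‖ := by rw [sub_add_cancel]
      _ ≤ ‖∇ g y - ∇ u₀ y‖ + ‖∇ u₀ y‖ := norm_add_le _ _
      _ ≤ M + 1 := by linarith
  filter_upwards [hmain] with r hr
  set b : E n → E n → E n := fun y ξ => a (z₀ + r • y) ξ with hb
  have hopb : Op p volume b α β := op_scale hop z₀ r
  obtain ⟨u, v, hH, hE⟩ := hdir n p volume b α β (ball 0 s) 0 s g hopb isOpen_ball Subset.rfl hg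
  have hDf : volume (ball (0 : E n) s) ≠ ⊤ := measure_ball_lt_top.ne
  obtain ⟨hv, hvK⟩ := energy hpair hintg hopb isOpen_ball hDf hg hgM hH hE
  have hsmall := hr g u v hg (fun y hy => (hgu y hy).2.trans
    ((min_le_left _ _).trans (min_le_left _ _))) hH hE hv hvK
  have hfin : IsFiniteMeasure (volume.restrict (ball (0 : E n) s)) := ⟨by
    rw [Measure.restrict_apply_univ]
    exact measure_ball_lt_top⟩
  -- the estimate in `L^q`
  have hHq : H0 volume q (ball (0 : E n) s) (fun x => u x - g x) fun x => v x - ∇ g x :=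
    h0_exp hq1 hqp.le isOpen_ball hDf hH
  set Bd : Set (E n) := {y : E n | y ∈ ball 0 s ∧ ε ≤ ‖v y - ∇ u₀ y‖} with hBd
  set B' := toMeasurable volume Bd with hB'
  have hBB' : Bd ⊆ B' := subset_toMeasurable _ _
  have hB'm : MeasurableSet B' := measurableSet_toMeasurable _ _
  have hBf : volume Bd ≠ ⊤ :=
    ((measure_mono (fun y hy => hy.1)).trans_lt (measure_ball_lt_top (x := (0 : E n)) (r := s))).ne
  have hB'f : volume B' ≠ ⊤ := by
    rw [hB', measure_toMeasurable]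
    exact hBf
  have hB'ε : volume.real B' ≤ ε := by
    rw [measureReal_def, hB', measure_toMeasurable]
    exact hsmall
  have hi3 : Integrable (fun y => ‖v y‖ ^ p) (volume.restrict (ball (0 : E n) s)) :=
    int_rpow hp (hv.restrict _)
  have hi4 : Integrable (B'.indicator fun _ => (1 : ℝ)) (volume.restrict (ball (0 : E n) s)) :=
    (integrable_const (1 : ℝ)).indicator hB'm
  have hi5 : Integrable (fun y => ‖v y - ∇ g y‖ ^ q) (volume.restrict (ball (0 : E n) s)) :=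
    int_rpow hq1 (hHq.2.1.restrict _)
  have hpt : ∀ y ∈ ball (0 : E n) s, ‖v y - ∇ g y‖ ^ q ≤
      2 * ε + (2 ^ q * l) * ‖v y‖ ^ p + X * B'.indicator (fun _ => (1 : ℝ)) y := by
    intro y hy
    have hzp : 0 ≤ ‖v y‖ ^ p := Real.rpow_nonneg (norm_nonneg _) p
    have hI0 : 0 ≤ B'.indicator (fun _ => (1 : ℝ)) y := indicator_nonneg (fun _ _ => zero_le_one) _
    by_cases hyB : y ∈ Bd
    · have h1 : B'.indicator (fun _ => (1 : ℝ)) y = 1 := indicator_of_mem (hBB' hyB) _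
      have h2 : ‖v y - ∇ g y‖ ^ q ≤ (‖v y‖ + (M + 1)) ^ q :=
        Real.rpow_le_rpow (norm_nonneg _)
          ((norm_sub_le _ _).trans (by linarith [hgM y hy])) (by linarith)
      have h3 := add_rpow_le (q := q) (by linarith) (norm_nonneg (v y)) (by linarith : 0 ≤ M + 1)
      have h4 := hCl ‖v y‖ (norm_nonneg _)
      have h5 : 2 ^ q * (‖v y‖ ^ q + (M + 1) ^ q) ≤
          2 ^ q * (l * ‖v y‖ ^ p + Cl + (M + 1) ^ q) :=
        mul_le_mul_of_nonneg_left (by linarith) h2q.le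
      have h6 : 2 ^ q * (l * ‖v y‖ ^ p + Cl + (M + 1) ^ q) = (2 ^ q * l) * ‖v y‖ ^ p + X := by
        rw [hX]
        ring
      rw [h1]
      linarith
    · have h1 : ‖v y - ∇ u₀ y‖ ≤ ε := by
        by_contra hcon
        exact hyB ⟨hy, (not_le.1 hcon).le⟩
      have h2 : ‖∇ g y - ∇ u₀ y‖ ≤ ε := (hgu y hy).2.trans
        ((min_le_left _ _).trans (min_le_right _ _))
      have h3 : ‖v y - ∇ g y‖ ≤ 2 * ε := by
        calc ‖v y - ∇ g y‖ = ‖(v y - ∇ u₀ y) - (∇ g y - ∇ u₀ y)‖ := by rw [sub_sub_sub_cancel_right]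
          _ ≤ ‖v y - ∇ u₀ y‖ + ‖∇ g y - ∇ u₀ y‖ := norm_sub_le _ _
          _ ≤ 2 * ε := by linarith
      have h4 : ‖v y - ∇ g y‖ ^ q ≤ (2 * ε) ^ q :=
        Real.rpow_le_rpow (norm_nonneg _) h3 (by linarith)
      have h5 : (2 * ε) ^ q ≤ (2 * ε) ^ (1 : ℝ) :=
        Real.rpow_le_rpow_of_exponent_ge (by positivity) (by linarith) hq1.le
      rw [Real.rpow_one] at h5
      have h6 : 0 ≤ (2 ^ q * l) * ‖v y‖ ^ p := by positivity
      have h7 : 0 ≤ X * B'.indicator (fun _ => (1 : ℝ)) y := mul_nonneg hX0 hI0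
      linarith
  have hLq : ∫ y, ‖v y - ∇ g y‖ ^ q ≤ κ := by
    have hz := (hHq.ae_eq_zero hq1 measurableSet_ball).2
    rw [ae_restrict_iff' measurableSet_ball.compl] at hz
    rw [← setIntegral_eq_integral_of_ae_compl_eq_zero (s := ball (0 : E n) s)]
    · have hj1 : Integrable (fun y => 2 * ε + (2 ^ q * l) * ‖v y‖ ^ p)
          (volume.restrict (ball (0 : E n) s)) := (integrable_const _).add (hi3.const_mul _)
      have h1 : ∫ y in ball (0 : E n) s, ‖v y - ∇ g y‖ ^ q ≤ ∫ y in ball (0 : E n) s,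
          (2 * ε + (2 ^ q * l) * ‖v y‖ ^ p + X * B'.indicator (fun _ => (1 : ℝ)) y) :=
        setIntegral_mono_on hi5 (hj1.add (hi4.const_mul X)) measurableSet_ball hpt
      rw [integral_add hj1 (hi4.const_mul X), integral_add (integrable_const _) (hi3.const_mul _),
        integral_const, integral_const_mul, integral_const_mul, integral_indicator hB'm,
        integral_const, Measure.restrict_restrict hB'm] at h1
      simp only [measureReal_restrict_apply_univ, smul_eq_mul, mul_one] at h1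
      have h2 : volume.real (B' ∩ ball (0 : E n) s) ≤ ε :=
        (measureReal_mono inter_subset_left hB'f).trans hB'ε
      have h3 : X * volume.real (B' ∩ ball (0 : E n) s) ≤ X * ε :=
        mul_le_mul_of_nonneg_left h2 hX0
      have h4 : (2 ^ q * l) * (∫ y in ball (0 : E n) s, ‖v y‖ ^ p) ≤ (2 ^ q * l) * K :=
        mul_le_mul_of_nonneg_left hvK (by positivity)
      have h5 : volume.real (ball (0 : E n) s) * (2 * ε) = ε * (2 * V) := by
        rw [hV]
        ring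
      have h6 : (2 ^ q * l) * K = l * (2 ^ q * K) := by ring
      have h7 : X * ε = ε * X := by ring
      linarith
    · filter_upwards [hz] with x hx hxD
      rw [hx hxD, norm_zero, Real.zero_rpow (by linarith)]
  obtain ⟨u', hu'c, hu'e, -, hu'b⟩ := hC (ball 0 s) 0 s (fun x => u x - g x)
    (fun x => v x - ∇ g x) hs isOpen_ball Subset.rfl hHq
  have hu'δ : ∀ y, |u' y| ≤ δ / 2 := by
    intro y
    refine (hu'b y).trans ?_
    have h1 : (∫ y, ‖v y - ∇ g y‖ ^ q) ^ (1 / q) ≤ κ ^ (1 / q) :=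
      Real.rpow_le_rpow (integral_nonneg fun y => Real.rpow_nonneg (norm_nonneg _) _) hLq
        (by positivity)
    have h2 : κ ^ (1 / q) = δ / (2 * c) := by
      rw [hκ, ← Real.rpow_mul (by positivity), mul_one_div_cancel (by linarith), Real.rpow_one]
    rw [h2] at h1
    calc C * s ^ (1 - (n : ℝ) / q) * (∫ y, ‖v y - ∇ g y‖ ^ q) ^ (1 / q)
        ≤ c * (δ / (2 * c)) := mul_le_mul_of_nonneg_left h1 hc0.le
      _ = δ / 2 := by field_simp
  refine ⟨fun y => u' y + g y, ⟨?_, v, ?_, hE⟩, ?_⟩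
  · exact (hu'c.add hg.1.continuous).continuousOn
  · intro D' _ _ _
    refine H0.isSob hg (?_ : H0 volume p (ball (0 : E n) s) _ _) D'
    have h1 := h0_congr hH hu'e
    have h2 : (fun x => u' x + g x - g x) = u' := by
      funext x
      ring
    rw [h2]
    exact h1
  · intro y hy
    have h1 := hu'δ y
    have h2 : |g y - u₀ y| ≤ δ / 2 := (hgu y hy).1.trans (min_le_right _ _)
    calc |u' y + g y - u₀ y| = |u' y + (g y - u₀ y)| := by rw [add_sub_assoc]
      _ ≤ |u' y| + |g y - u₀ y| := abs_add_le _ _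
      _ ≤ δ := by linarith

end Pool.Agent.Lib.MP_abd978_an.UN.H88
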