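import Pool.Agent.Lib.MP_abd978_an.UN.Interfaces

/-!
# Project UNW, module RIGA: separated solutions give the derivative relation `RatD`
-/

set_option autoImplicit false

open MeasureTheory Metric Set Filter Topology ContDiff
open scoped Gradient RealInnerProductSpace NNReal ENNReal Convolution

namespace Pool.Agent.Lib.MP_abd978_an.UN.H88

variable {n : ℕ}

/-! ### The ordinary differential equation -/

theorem ode (q G : ℝ → ℝ) (hq : StrictMono q) (hqs : Function.Surjective q) (hG : Continuous G) (hG0 : ∀ t, 0 < G t) (t₀ : ℝ) :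
    ∃ (T : ℝ ≃ₜ ℝ) (δ : ℝ), 0 < δ ∧ T 0 = t₀ ∧
      ∀ τ : ℝ, |τ| < δ → HasDerivAt (fun r => q (T r)) (-G (T τ)) τ := by
  set Q : ℝ ≃ₜ ℝ := (hq.orderIsoOfSurjective q hqs).toHomeomorph with hQ
  have hQq : ∀ t, Q t = q t := fun t => rfl
  have hqQ : ∀ s, q (Q.symm s) = s := by
    intro s
    rw [← hQq, Q.apply_symm_apply]
  have hQs : ∀ t, Q.symm (q t) = t := by
    intro t
    rw [← hQq, Q.symm_apply_apply]
  set s₀ := q t₀ with hs₀
  -- the clamped right-hand side
  set m : ℝ → ℝ := fun s => max (s₀ - 1) (min s (s₀ + 1)) with hm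
  have hmc : Continuous m := continuous_const.max (continuous_id.min continuous_const)
  have hmI : ∀ s, m s ∈ Icc (s₀ - 1) (s₀ + 1) := by
    intro s
    refine ⟨le_max_left _ _, max_le (by linarith) (min_le_right _ _)⟩
  have hmid : ∀ s ∈ Icc (s₀ - 1) (s₀ + 1), m s = s := by
    intro s hs
    simp only [hm]
    rw [min_eq_left hs.2, max_eq_right hs.1]
  set R : ℝ → ℝ := fun s => (G (Q.symm (m s)))⁻¹ with hR
  have hRc : Continuous R := by
    refine Continuous.inv₀ (hG.comp (Q.symm.continuous.comp hmc)) fun s => (hG0 _).ne'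
  obtain ⟨c, hc0, hc⟩ : ∃ c : ℝ, 0 < c ∧ ∀ s, c ≤ R s := by
    have h1 : ContinuousOn (fun s => (G (Q.symm s))⁻¹) (Icc (s₀ - 1) (s₀ + 1)) :=
      (Continuous.inv₀ (hG.comp Q.symm.continuous) fun s => (hG0 _).ne').continuousOn
    obtain ⟨s₁, _, hs₁'⟩ := isCompact_Icc.exists_isMinOn
      (nonempty_Icc.2 (by linarith : s₀ - 1 ≤ s₀ + 1)) h1
    refine ⟨(G (Q.symm s₁))⁻¹, inv_pos.2 (hG0 _), fun s => ?_⟩
    exact hs₁' (hmI s)
  set Φ : ℝ → ℝ := fun s => ∫ σ in s₀..s, R σ with hΦ
  have hΦd : ∀ s, HasDerivAt Φ (R s) s := fun s =>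
    intervalIntegral.integral_hasDerivAt_right (hRc.intervalIntegrable _ _)
      hRc.aestronglyMeasurable.stronglyMeasurableAtFilter hRc.continuousAt
  have hΦ0 : Φ s₀ = 0 := intervalIntegral.integral_same
  have hΦm : StrictMono Φ := by
    refine strictMono_of_deriv_pos fun s => ?_
    rw [(hΦd s).deriv]
    exact hc0.trans_le (hc s)
  have hΦc : Continuous Φ := continuous_iff_continuousAt.2 fun s => (hΦd s).continuousAt
  have hlow : Monotone fun s => Φ s - c * s := by
    have hd : ∀ s, HasDerivAt (fun s => Φ s - c * s) (R s - c) s := by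
      intro s
      have h1 := (hΦd s).sub ((hasDerivAt_id s).const_mul c)
      rw [mul_one] at h1
      exact h1
    refine monotone_of_deriv_nonneg (fun s => (hd s).differentiableAt) fun s => ?_
    rw [(hd s).deriv]
    linarith [hc s]
  have hΦs : Function.Surjective Φ := by
    refine hΦc.surjective ?_ ?_
    · have h1 : Tendsto (fun s : ℝ => c * s + (0 - c * s₀)) atTop atTop :=
        tendsto_atTop_add_const_right _ _ (tendsto_id.const_mul_atTop hc0)
      refine tendsto_atTop_mono' _ ?_ h1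
      filter_upwards [eventually_ge_atTop s₀] with s hs
      have h2 := hlow hs
      simp only [hΦ0] at h2
      linarith
    · have h1 : Tendsto (fun s : ℝ => c * s + (0 - c * s₀)) atBot atBot :=
        tendsto_atBot_add_const_right _ _ (tendsto_id.const_mul_atBot hc0)
      refine tendsto_atBot_mono' _ ?_ h1
      filter_upwards [eventually_le_atBot s₀] with s hs
      have h2 := hlow hs
      simp only [hΦ0] at h2
      linarith
  set P : ℝ ≃ₜ ℝ := (hΦm.orderIsoOfSurjective Φ hΦs).toHomeomorph with hP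
  have hPΦ : ∀ s, P s = Φ s := fun s => rfl
  have hP0 : P.symm 0 = s₀ := by
    rw [← hΦ0, ← hPΦ, P.symm_apply_apply]
  set T : ℝ ≃ₜ ℝ := ((Homeomorph.neg ℝ).trans P.symm).trans Q.symm with hT
  have hTτ : ∀ τ, T τ = Q.symm (P.symm (-τ)) := fun τ => rfl
  have hqT : ∀ τ, q (T τ) = P.symm (-τ) := by
    intro τ
    rw [hTτ, hqQ]
  -- the interval
  have hev : ∀ᶠ τ : ℝ in 𝓝 0, P.symm (-τ) ∈ Icc (s₀ - 1) (s₀ + 1) := by
    have h1 : Tendsto (fun τ : ℝ => P.symm (-τ)) (𝓝 0) (𝓝 s₀) := by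
      have h2 : Continuous fun τ : ℝ => P.symm (-τ) := P.symm.continuous.comp continuous_neg
      have h3 := h2.tendsto 0
      rwa [neg_zero, hP0] at h3
    exact h1.eventually (Icc_mem_nhds (by linarith) (by linarith))
  obtain ⟨δ, hδ, hδ'⟩ := Metric.eventually_nhds_iff.1 hev
  refine ⟨T, δ, hδ, ?_, ?_⟩
  · rw [hTτ, neg_zero, hP0, hs₀, hQs]
  · intro τ hτ
    have h1 : P.symm (-τ) ∈ Icc (s₀ - 1) (s₀ + 1) := by
      refine hδ' ?_
      rwa [Real.dist_eq, sub_zero]
    have h2 : HasDerivAt (fun y => P.symm y) (R (P.symm (-τ)))⁻¹ (-τ) := by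
      refine HasDerivAt.of_local_left_inverse P.symm.continuous.continuousAt
        (hΦd (P.symm (-τ))) (hc0.trans_le (hc _)).ne' ?_
      exact Eventually.of_forall fun y => P.apply_symm_apply y
    have h3 : HasDerivAt (fun r : ℝ => P.symm (-r)) ((R (P.symm (-τ)))⁻¹ * (-1)) τ :=
      h2.comp τ (hasDerivAt_neg τ)
    have h4 : (R (P.symm (-τ)))⁻¹ = G (T τ) := by
      rw [hR]
      simp only
      rw [inv_inv, hmid _ h1, hTτ]
    rw [h4, mul_neg, mul_one] at h3
    exact h3.congr_of_eventuallyEq (Eventually.of_forall fun r => hqT r)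

/-! ### Integration by parts in one direction -/

theorem inner_grad (φ : E n → ℝ) (x v : E n) : ⟪v, ∇ φ x⟫ = fderiv ℝ φ x v := by
  rw [real_inner_comm, grad_eq, InnerProductSpace.toDual_symm_apply]

theorem ibp {D : Set (E n)} {φ : E n → ℝ} (hφ : Test D φ) {c c' : E n → ℝ} (hc : Continuous c)
    (hc' : Continuous c') (v : E n) (h : ∀ x ∈ tsupport φ, HasLineDerivAt ℝ c (c' x) x v) :
    ∫ x, c x * ⟪v, ∇ φ x⟫ = -∫ x, c' x * φ x := by
  have hgv : Continuous fun x => ⟪v, ∇ φ x⟫ := continuous_const.inner (continuous_grad hφ.1)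
  have hgs : HasCompactSupport fun x => ⟪v, ∇ φ x⟫ := by
    refine HasCompactSupport.of_support_subset_isCompact hφ.2.1 ?_
    intro x hx
    by_contra hcon
    refine hx ?_
    simp only
    rw [grad_eq_zero_of_notMem hcon, inner_zero_right]
  refine integral_bilinear_hasLineDerivAt_right_eq_neg_left_of_integrable (μ := volume)
    (B := ContinuousLinearMap.mul ℝ ℝ) (v := v) ?_ ?_ ?_ h ?_
  · exact (hc'.mul hφ.1.continuous).integrable_of_hasCompactSupport hφ.2.1.mul_left
  · exact (hc.mul hgv).integrable_of_hasCompactSupport hgs.mul_left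
  · exact (hc.mul hφ.1.continuous).integrable_of_hasCompactSupport hφ.2.1.mul_left
  · intro x _
    rw [inner_grad]
    exact ((hφ.1.differentiable (by simp) x).hasFDerivAt).hasLineDerivAt v

/-- the scalar functions `exp(κ ⟪e, x⟫) c(⟪e', x⟫)` -/
noncomputable def sc (κ : ℝ) (e e' : E n) (c : ℝ → ℝ) (x : E n) : ℝ :=
  Real.exp (κ * ⟪e, x⟫) * c ⟪e', x⟫

theorem sc_continuous (κ : ℝ) (e e' : E n) {c : ℝ → ℝ} (hc : Continuous c) :
    Continuous (sc κ e e' c) := by
  unfold sc
  refine Continuous.mul (by fun_prop) (hc.comp (by fun_prop))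

theorem sc_line (κ : ℝ) (e e' : E n) (c : ℝ → ℝ) {v : E n} (hv : ⟪e', v⟫ = 0) (x : E n) :
    HasLineDerivAt ℝ (sc κ e e' c) (κ * ⟪e, v⟫ * sc κ e e' c x) x v := by
  unfold HasLineDerivAt
  have h1 : (fun t : ℝ => sc κ e e' c (x + t • v)) =
      fun t => Real.exp (κ * (⟪e, x⟫ + t * ⟪e, v⟫)) * c ⟪e', x⟫ := by
    funext t
    unfold sc
    rw [inner_add_right, inner_add_right, real_inner_smul_right, real_inner_smul_right, hv,
      mul_zero, add_zero]
  rw [h1]
  have h2 : HasDerivAt (fun t : ℝ => κ * (⟪e, x⟫ + t * ⟪e, v⟫)) (κ * (1 * ⟪e, v⟫)) 0 := by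
    exact (((hasDerivAt_id (0 : ℝ)).mul_const ⟪e, v⟫).const_add ⟪e, x⟫).const_mul κ
  have h3 := (h2.exp).mul_const (c ⟪e', x⟫)
  have h4 : Real.exp (κ * (⟪e, x⟫ + 0 * ⟪e, v⟫)) * (κ * (1 * ⟪e, v⟫)) * c ⟪e', x⟫ =
      κ * ⟪e, v⟫ * sc κ e e' c x := by
    unfold sc
    rw [zero_mul, add_zero]
    ring
  rw [← h4]
  exact h3

theorem sc_line' (κ : ℝ) {e e' : E n} (hee : ⟪e, e'⟫ = 0) (he' : ⟪e', e'⟫ = 1) {c c' : ℝ → ℝ}
    {x : E n} (hc : HasDerivAt c (c' ⟪e', x⟫) ⟪e', x⟫) :
    HasLineDerivAt ℝ (sc κ e e' c) (sc κ e e' c' x) x e' := by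
  unfold HasLineDerivAt
  have h1 : (fun t : ℝ => sc κ e e' c (x + t • e')) =
      fun t => Real.exp (κ * ⟪e, x⟫) * c (⟪e', x⟫ + t) := by
    funext t
    unfold sc
    rw [inner_add_right, inner_add_right, real_inner_smul_right, real_inner_smul_right, hee, he',
      mul_zero, add_zero, mul_one]
  rw [h1]
  have h2 : HasDerivAt (fun t : ℝ => c (⟪e', x⟫ + t)) (c' ⟪e', x⟫) 0 := by
    refine HasDerivAt.comp_const_add ⟪e', x⟫ 0 ?_
    rwa [add_zero]
  exact h2.const_mul _

/-- the weak divergence of `exp(κ ⟪e, x⟫) V(⟪e', x⟫)` -/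
theorem decomp (κ : ℝ) {e e' : E n} (he : ⟪e, e⟫ = 1) (he' : ⟪e', e'⟫ = 1) (hee : ⟪e, e'⟫ = 0)
    {V : ℝ → E n} (hV : Continuous V) {D : Set (E n)} {φ : E n → ℝ} (hφ : Test D φ) :
    ∫ x, ⟪Real.exp (κ * ⟪e, x⟫) • V ⟪e', x⟫, ∇ φ x⟫ =
      (∫ x, sc κ e e' (fun τ => ⟪V τ, e'⟫) x * ⟪e', ∇ φ x⟫) -
        ∫ x, κ * sc κ e e' (fun τ => ⟪V τ, e⟫) x * φ x := by
  have hee' : ⟪e', e⟫ = 0 := by rw [real_inner_comm, hee]
  have hgs : ∀ v : E n, HasCompactSupport fun x => ⟪v, ∇ φ x⟫ := by
    intro v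
    refine HasCompactSupport.of_support_subset_isCompact hφ.2.1 ?_
    intro x hx
    by_contra hcon
    refine hx ?_
    simp only
    rw [grad_eq_zero_of_notMem hcon, inner_zero_right]
  have hgc : ∀ v : E n, Continuous fun x => ⟪v, ∇ φ x⟫ := fun v =>
    continuous_const.inner (continuous_grad hφ.1)
  set P : E n → E n := fun v => v - ⟪e, v⟫ • e - ⟪e', v⟫ • e' with hP
  have hPe : ∀ v, ⟪e, P v⟫ = 0 := by
    intro v
    simp only [hP]
    rw [inner_sub_right, inner_sub_right, real_inner_smul_right, real_inner_smul_right, he, hee]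
    ring
  have hPe' : ∀ v, ⟪e', P v⟫ = 0 := by
    intro v
    simp only [hP]
    rw [inner_sub_right, inner_sub_right, real_inner_smul_right, real_inner_smul_right, he', hee']
    ring
  have hcj : ∀ j : Fin n, Continuous fun τ => V τ j := fun j => by fun_prop
  have hce : Continuous fun τ => ⟪V τ, e⟫ := hV.inner continuous_const
  have hce' : Continuous fun τ => ⟪V τ, e'⟫ := hV.inner continuous_const
  -- pointwise
  have hpt : ∀ x, ⟪Real.exp (κ * ⟪e, x⟫) • V ⟪e', x⟫, ∇ φ x⟫ =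
      sc κ e e' (fun τ => ⟪V τ, e'⟫) x * ⟪e', ∇ φ x⟫ +
        sc κ e e' (fun τ => ⟪V τ, e⟫) x * ⟪e, ∇ φ x⟫ +
          ∑ j : Fin n, sc κ e e' (fun τ => V τ j) x *
            ⟪P (EuclideanSpace.single j 1), ∇ φ x⟫ := by
    intro x
    set w := V ⟪e', x⟫ with hw
    have h1 : w = ⟪w, e'⟫ • e' + ⟪w, e⟫ • e + P w := by
      simp only [hP]
      rw [real_inner_comm w e, real_inner_comm w e']
      abel
    have h2 : P w = ∑ j : Fin n, w j • P (EuclideanSpace.single j 1) := by
      have h3 : w = ∑ j : Fin n, w j • (EuclideanSpace.single j 1 : E n) := by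
        ext i
        simp [Finset.sum_apply, Pi.single_apply]
      have hPlin : ∀ (s : Finset (Fin n)) (a : Fin n → ℝ) (b : Fin n → E n),
          P (∑ j ∈ s, a j • b j) = ∑ j ∈ s, a j • P (b j) := by
        intro s a b
        simp only [hP]
        rw [inner_sum, inner_sum, Finset.sum_smul, Finset.sum_smul, ← Finset.sum_sub_distrib,
          ← Finset.sum_sub_distrib]
        refine Finset.sum_congr rfl fun j _ => ?_
        rw [real_inner_smul_right, real_inner_smul_right, smul_sub, smul_sub, smul_smul, smul_smul]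
      nth_rewrite 1 [h3]
      exact hPlin _ _ _
    have h3 : ⟪w, ∇ φ x⟫ = ⟪w, e'⟫ * ⟪e', ∇ φ x⟫ + ⟪w, e⟫ * ⟪e, ∇ φ x⟫ +
        ∑ j : Fin n, w j * ⟪P (EuclideanSpace.single j 1), ∇ φ x⟫ := by
      nth_rewrite 1 [h1]
      rw [inner_add_left, inner_add_left, real_inner_smul_left, real_inner_smul_left, h2,
        sum_inner]
      congr 1
      refine Finset.sum_congr rfl fun j _ => ?_
      rw [real_inner_smul_left]
    rw [real_inner_smul_left, h3]
    unfold sc
    rw [mul_add, mul_add, Finset.mul_sum]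
    congr 1
    · ring
    · refine Finset.sum_congr rfl fun j _ => ?_
      ring
  have hint : ∀ (c : ℝ → ℝ) (v : E n), Continuous c →
      Integrable fun x => sc κ e e' c x * ⟪v, ∇ φ x⟫ := fun c v hc =>
    ((sc_continuous κ e e' hc).mul (hgc v)).integrable_of_hasCompactSupport (hgs v).mul_left
  have hzero : ∀ j : Fin n, ∫ x, sc κ e e' (fun τ => V τ j) x *
      ⟪P (EuclideanSpace.single j 1), ∇ φ x⟫ = 0 := by
    intro j
    rw [ibp hφ (sc_continuous κ e e' (hcj j))
      (c' := fun x => κ * ⟪e, P (EuclideanSpace.single j 1)⟫ * sc κ e e' (fun τ => V τ j) x)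
      (continuous_const.mul (sc_continuous κ e e' (hcj j))) _
      fun x _ => sc_line κ e e' _ (hPe' _) x]
    rw [hPe]
    simp
  have hE : ∫ x, sc κ e e' (fun τ => ⟪V τ, e⟫) x * ⟪e, ∇ φ x⟫ =
      -∫ x, κ * sc κ e e' (fun τ => ⟪V τ, e⟫) x * φ x := by
    rw [ibp hφ (sc_continuous κ e e' hce)
      (c' := fun x => κ * ⟪e, e⟫ * sc κ e e' (fun τ => ⟪V τ, e⟫) x)
      (continuous_const.mul (sc_continuous κ e e' hce)) _
      fun x _ => sc_line κ e e' _ hee' x]
    rw [he, mul_one]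
  have hi1 : Integrable fun x => sc κ e e' (fun τ => ⟪V τ, e'⟫) x * ⟪e', ∇ φ x⟫ +
      sc κ e e' (fun τ => ⟪V τ, e⟫) x * ⟪e, ∇ φ x⟫ := (hint _ _ hce').add (hint _ _ hce)
  simp_rw [hpt]
  rw [integral_add hi1 (integrable_finsetSum _ fun j _ => hint _ _ (hcj j)),
    integral_add (hint _ _ hce') (hint _ _ hce), integral_finsetSum _ fun j _ => hint _ _ (hcj j),
    hE, Finset.sum_eq_zero fun j _ => hzero j]
  ring

theorem abs_inner_lt {e' x : E n} {δ : ℝ} (he' : ⟪e', e'⟫ = 1) (hx : x ∈ ball (0 : E n) δ) :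
    |⟪e', x⟫| < δ := by
  have h1 : ‖e'‖ = 1 := by
    have h2 := real_inner_self_eq_norm_sq e'
    rw [he'] at h2
    nlinarith [norm_nonneg e', sq_nonneg (‖e'‖ - 1)]
  have h2 := abs_real_inner_le_norm e' x
  rw [h1, one_mul] at h2
  rw [mem_ball_zero_iff] at hx
  linarith

/-- the direct part -/
theorem part_a (κ : ℝ) {e e' : E n} (he : ⟪e, e⟫ = 1) (he' : ⟪e', e'⟫ = 1) (hee : ⟪e, e'⟫ = 0)
    {V : ℝ → E n} (hV : Continuous V) {δ : ℝ}
    (hd : ∀ τ, |τ| < δ → HasDerivAt (fun r => ⟪V r, e'⟫) (-κ * ⟪V τ, e⟫) τ)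
    {φ : E n → ℝ} (hφ : Test (ball 0 δ) φ) :
    ∫ x, ⟪Real.exp (κ * ⟪e, x⟫) • V ⟪e', x⟫, ∇ φ x⟫ = 0 := by
  have hce : Continuous fun τ => ⟪V τ, e⟫ := hV.inner continuous_const
  have hce' : Continuous fun τ => ⟪V τ, e'⟫ := hV.inner continuous_const
  rw [decomp κ he he' hee hV hφ, ibp hφ (sc_continuous κ e e' hce')
    (c' := sc κ e e' fun τ => -κ * ⟪V τ, e⟫) (sc_continuous κ e e' (continuous_const.mul hce)) e'
    fun x hx => sc_line' κ hee he' (hd _ (abs_inner_lt he' (hφ.2.2 hx)))]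
  have h1 : ∫ x, κ * sc κ e e' (fun τ => ⟪V τ, e⟫) x * φ x =
      -∫ x, sc κ e e' (fun τ => -κ * ⟪V τ, e⟫) x * φ x := by
    rw [← integral_neg]
    refine integral_congr_ae (Eventually.of_forall fun x => ?_)
    simp only [sc]
    ring
  rw [h1]
  ring

/-- continuous functions whose weak derivative in the direction `e'` vanishes -/
theorem const_line {e' : E n} (he' : ⟪e', e'⟫ = 1) {W : E n → ℝ} (hW : Continuous W) {δ : ℝ}
    (hδ : 0 < δ) (h : ∀ φ : E n → ℝ, Test (ball 0 δ) φ → ∫ x, W x * ⟪e', ∇ φ x⟫ = 0) {r : ℝ}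
    (hr : |r| < δ / 2) : W (r • e') = W 0 := by
  have hn' : ‖e'‖ = 1 := by
    have h2 := real_inner_self_eq_norm_sq e'
    rw [he'] at h2
    nlinarith [norm_nonneg e', sq_nonneg (‖e'‖ - 1)]
  -- the bump functions
  set b : ℕ → ContDiffBump (0 : E n) := fun i =>
    ⟨δ / 4 / (i + 1) / 2, δ / 4 / (i + 1), by positivity, by
      have : 0 < δ / 4 / ((i : ℝ) + 1) := by positivity
      linarith⟩ with hb
  have hout : ∀ i, (b i).rOut = δ / 4 / (i + 1) := fun i => rfl
  have hout' : ∀ i, (b i).rOut ≤ δ / 4 := by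
    intro i
    rw [hout]
    exact div_le_self (by positivity) (by
      have : (0 : ℝ) ≤ i := Nat.cast_nonneg i
      linarith)
  have hlim : Tendsto (fun i => (b i).rOut) atTop (𝓝 0) := by
    have h1 : Tendsto (fun i : ℕ => δ / 4 * (1 / ((i : ℝ) + 1))) atTop (𝓝 (δ / 4 * 0)) :=
      tendsto_one_div_add_atTop_nhds_zero_nat.const_mul _
    rw [mul_zero] at h1
    refine h1.congr fun i => ?_
    rw [hout]
    ring
  have hT : ∀ x, Tendsto (fun i => ((b i).normed volume ⋆[ContinuousLinearMap.lsmul ℝ ℝ, volume] W) x)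
      atTop (𝓝 (W x)) := fun x =>
    ContDiffBump.convolution_tendsto_right_of_continuous hlim hW x
  have hconst : ∀ i, ((b i).normed volume ⋆[ContinuousLinearMap.lsmul ℝ ℝ, volume] W) (r • e') =
      ((b i).normed volume ⋆[ContinuousLinearMap.lsmul ℝ ℝ, volume] W) 0 := by
    intro i
    set f := (b i).normed (volume : Measure (E n)) with hf
    have hfd : ContDiff ℝ ∞ f := (b i).contDiff_normed
    have hfc : HasCompactSupport f := (b i).hasCompactSupport_normed
    have hder : ∀ s : ℝ, |s| < δ / 2 → HasDerivAt (fun s : ℝ =>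
        (f ⋆[ContinuousLinearMap.lsmul ℝ ℝ, volume] W) (s • e')) 0 s := by
      intro s hs
      have h1 := hfc.hasFDerivAt_convolution_right (L := (ContinuousLinearMap.lsmul ℝ ℝ).flip)
        (μ := (volume : Measure (E n))) (hW.locallyIntegrable) (hfd.of_le (by simp)) (s • e')
      rw [convolution_flip] at h1
      have h2 : HasDerivAt (fun s : ℝ => s • e') e' s := by
        simpa using (hasDerivAt_id s).smul_const e'
      have h3 := h1.comp_hasDerivAt s h2
      have h4 : ((W ⋆[(ContinuousLinearMap.lsmul ℝ ℝ).flip.precompR (E n), volume] fderiv ℝ f)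
          (s • e')) e' = 0 := by
        rw [convolution_precompR_apply _ hW.locallyIntegrable
          (hfc.fderiv ℝ) (hfd.continuous_fderiv (by simp))]
        rw [convolution_def]
        -- the test function
        have h5 : Test (ball 0 δ) fun y => f (s • e' - y) := by
          refine ⟨hfd.comp (by fun_prop), ?_, ?_⟩
          · refine HasCompactSupport.of_support_subset_isCompact
              (isCompact_closedBall (s • e') (δ / 4)) ?_
            intro y hy
            have h6 : s • e' - y ∈ Function.support f := hy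
            rw [hf, (b i).support_normed_eq, mem_ball_zero_iff] at h6
            rw [mem_closedBall, dist_eq_norm, norm_sub_rev]
            exact h6.le.trans (hout' i)
          · have h6 : tsupport (fun y => f (s • e' - y)) ⊆ closedBall (s • e') (δ / 4) := by
              refine closure_minimal ?_ isClosed_closedBall
              intro y hy
              have h6 : s • e' - y ∈ Function.support f := hy
              rw [hf, (b i).support_normed_eq, mem_ball_zero_iff] at h6
              rw [mem_closedBall, dist_eq_norm, norm_sub_rev]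
              exact h6.le.trans (hout' i)
            intro y hy
            have h7 := h6 hy
            rw [mem_closedBall, dist_eq_norm] at h7
            rw [mem_ball_zero_iff]
            have h8 : ‖s • e'‖ = |s| := by rw [norm_smul, hn', mul_one, Real.norm_eq_abs]
            calc ‖y‖ = ‖(y - s • e') + s • e'‖ := by rw [sub_add_cancel]
              _ ≤ ‖y - s • e'‖ + ‖s • e'‖ := norm_add_le _ _
              _ < δ := by rw [h8]; linarith
        have h6 := h _ h5
        have h7 : ∀ y, ⟪e', ∇ (fun y => f (s • e' - y)) y⟫ = -(fderiv ℝ f (s • e' - y) e') := by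
          intro y
          rw [inner_grad]
          have h8 : HasFDerivAt (fun y => f (s • e' - y))
              ((fderiv ℝ f (s • e' - y)).comp (-ContinuousLinearMap.id ℝ (E n))) y := by
            refine HasFDerivAt.comp y
              ((hfd.differentiable (by simp) (s • e' - y)).hasFDerivAt) ?_
            exact (hasFDerivAt_id y).const_sub (s • e')
          rw [h8.fderiv]
          simp
        simp_rw [h7] at h6
        have h8 : ∫ t, (ContinuousLinearMap.lsmul ℝ ℝ).flip (W t)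
            (fderiv ℝ f (s • e' - t) e') = -∫ x, W x * -(fderiv ℝ f (s • e' - x) e') := by
          rw [← integral_neg]
          refine integral_congr_ae (Eventually.of_forall fun y => ?_)
          simp only [ContinuousLinearMap.flip_apply, ContinuousLinearMap.lsmul_apply, smul_eq_mul]
          ring
        rw [h8, h6, neg_zero]
      rw [h4] at h3
      exact h3
    have hopen : IsOpen (Ioo (-(δ / 2)) (δ / 2)) := isOpen_Ioo
    have hpre : IsPreconnected (Ioo (-(δ / 2)) (δ / 2)) := isPreconnected_Ioo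
    set J : ℝ → ℝ := fun s : ℝ => (f ⋆[ContinuousLinearMap.lsmul ℝ ℝ, volume] W) (s • e')
      with hJ
    have h1 : J r = J 0 := by
      have h0 : (0 : ℝ) ∈ Ioo (-(δ / 2)) (δ / 2) := ⟨by linarith, by linarith⟩
      have h2 : DifferentiableOn ℝ J (Ioo (-(δ / 2)) (δ / 2)) := fun s hs =>
        (hder s (abs_lt.2 hs)).differentiableAt.differentiableWithinAt
      have h3 : EqOn (deriv J) 0 (Ioo (-(δ / 2)) (δ / 2)) := fun s hs =>
        (hder s (abs_lt.2 hs)).deriv
      exact hopen.is_const_of_deriv_eq_zero hpre h2 h3 (abs_lt.1 hr) h0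
    simp only [hJ, zero_smul] at h1
    exact h1
  have h1 := hT (r • e')
  simp_rw [hconst] at h1
  exact tendsto_nhds_unique h1 (hT 0)

/-- the converse part -/
theorem part_b (κ : ℝ) {e e' : E n} (he : ⟪e, e⟫ = 1) (he' : ⟪e', e'⟫ = 1) (hee : ⟪e, e'⟫ = 0)
    {V : ℝ → E n} (hV : Continuous V) {δ : ℝ} (hδ : 0 < δ)
    (hw : ∀ φ : E n → ℝ, Test (ball 0 δ) φ →
      ∫ x, ⟪Real.exp (κ * ⟪e, x⟫) • V ⟪e', x⟫, ∇ φ x⟫ = 0) :
    HasDerivAt (fun r => ⟪V r, e'⟫) (-κ * ⟪V 0, e⟫) 0 := by
  have hce : Continuous fun τ => ⟪V τ, e⟫ := hV.inner continuous_const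
  have hce' : Continuous fun τ => ⟪V τ, e'⟫ := hV.inner continuous_const
  set I : ℝ → ℝ := fun τ => ∫ σ in (0 : ℝ)..τ, κ * ⟪V σ, e⟫ with hI
  have hκe : Continuous fun τ => κ * ⟪V τ, e⟫ := continuous_const.mul hce
  have hId : ∀ τ, HasDerivAt I (κ * ⟪V τ, e⟫) τ := fun τ =>
    intervalIntegral.integral_hasDerivAt_right (hκe.intervalIntegrable _ _)
      hκe.aestronglyMeasurable.stronglyMeasurableAtFilter hκe.continuousAt
  have hIc : Continuous I := continuous_iff_continuousAt.2 fun τ => (hId τ).continuousAt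
  have hI0 : I 0 = 0 := intervalIntegral.integral_same
  have hWc : Continuous fun τ => ⟪V τ, e'⟫ + I τ := hce'.add hIc
  have hgs : ∀ φ : E n → ℝ, Test (ball 0 δ) φ → HasCompactSupport fun x => ⟪e', ∇ φ x⟫ := by
    intro φ hφ
    refine HasCompactSupport.of_support_subset_isCompact hφ.2.1 ?_
    intro x hx
    by_contra hcon
    refine hx ?_
    simp only
    rw [grad_eq_zero_of_notMem hcon, inner_zero_right]
  have hkey : ∀ φ : E n → ℝ, Test (ball 0 δ) φ →
      ∫ x, sc κ e e' (fun τ => ⟪V τ, e'⟫ + I τ) x * ⟪e', ∇ φ x⟫ = 0 := by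
    intro φ hφ
    have h1 := hw φ hφ
    rw [decomp κ he he' hee hV hφ] at h1
    have h2 := ibp hφ (sc_continuous κ e e' hIc)
      (c' := sc κ e e' fun τ => κ * ⟪V τ, e⟫) (sc_continuous κ e e' hκe) e'
      fun x _ => sc_line' κ hee he' (hId _)
    have h3 : ∫ x, κ * sc κ e e' (fun τ => ⟪V τ, e⟫) x * φ x =
        ∫ x, sc κ e e' (fun τ => κ * ⟪V τ, e⟫) x * φ x := by
      refine integral_congr_ae (Eventually.of_forall fun x => ?_)
      simp only [sc]
      ring
    have hg : Continuous fun x => ⟪e', ∇ φ x⟫ := continuous_const.inner (continuous_grad hφ.1)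
    have h4 : ∫ x, sc κ e e' (fun τ => ⟪V τ, e'⟫ + I τ) x * ⟪e', ∇ φ x⟫ =
        (∫ x, sc κ e e' (fun τ => ⟪V τ, e'⟫) x * ⟪e', ∇ φ x⟫) +
          ∫ x, sc κ e e' I x * ⟪e', ∇ φ x⟫ := by
      rw [← integral_add]
      · refine integral_congr_ae (Eventually.of_forall fun x => ?_)
        simp only [sc]
        ring
      · exact ((sc_continuous κ e e' hce').mul hg).integrable_of_hasCompactSupport
          (hgs φ hφ).mul_left
      · exact ((sc_continuous κ e e' hIc).mul hg).integrable_of_hasCompactSupport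
          (hgs φ hφ).mul_left
    rw [h4, h2, ← h3]
    linarith
  have hconst : ∀ r : ℝ, |r| < δ / 2 → ⟪V r, e'⟫ + I r = ⟪V 0, e'⟫ := by
    intro r hr
    have h1 := const_line he' (sc_continuous κ e e' hWc) hδ hkey hr
    simp only [sc, real_inner_smul_right, hee, he', inner_zero_right, hI0, mul_zero, mul_one,
      Real.exp_zero, one_mul, add_zero] at h1
    exact h1
  have h1 : HasDerivAt (fun r => ⟪V 0, e'⟫ - I r) (-κ * ⟪V 0, e⟫) 0 := by
    have h2 := (hId 0).const_sub ⟪V 0, e'⟫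
    rwa [← neg_mul] at h2
  refine h1.congr_of_eventuallyEq ?_
  have h2 : ∀ᶠ r : ℝ in 𝓝 0, |r| < δ / 2 := by
    have h3 : ball (0 : ℝ) (δ / 2) ∈ 𝓝 (0 : ℝ) := ball_mem_nhds _ (by positivity)
    filter_upwards [h3] with r hr
    rwa [mem_ball_zero_iff, Real.norm_eq_abs] at hr
  filter_upwards [h2] with r hr
  have h3 := hconst r hr
  linarith

/-! ### Frozen operators on lines -/

variable {p : ℝ}

theorem frz_zero' {A : E n → E n} (h : Frz p A) : A 0 = 0 := by
  have h1 := h.neg 0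
  rw [neg_zero] at h1
  have h2 : (2 : ℝ) • A 0 = 0 := by
    rw [two_smul]
    nth_rewrite 2 [h1]
    exact add_neg_cancel _
  exact (smul_eq_zero.1 h2).resolve_left two_ne_zero

theorem frz_pos' {A : E n → E n} (h : Frz p A) {ξ : E n} (hξ : ξ ≠ 0) : 0 < ⟪A ξ, ξ⟫ := by
  have h1 := h.mono ξ 0 hξ
  rwa [frz_zero' h, sub_zero, sub_zero] at h1

theorem line_ne {e e' : E n} (he : ⟪e, e⟫ = 1) (hee : ⟪e, e'⟫ = 0) (t : ℝ) :
    e + t • e' ≠ 0 := by
  intro hr
  have h1 : ⟪e, e + t • e'⟫ = 1 := by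
    rw [inner_add_right, real_inner_smul_right, hee, he]
    norm_num
  rw [hr, inner_zero_right] at h1
  norm_num at h1

theorem line_cont {A : E n → E n} (h : Frz p A) (e e' : E n) :
    Continuous fun t : ℝ => A (e + t • e') := h.cont.comp (by fun_prop)

theorem line_strictMono {A : E n → E n} (h : Frz p A) {e e' : E n} (he' : ⟪e', e'⟫ = 1) :
    StrictMono fun t : ℝ => ⟪A (e + t • e'), e'⟫ := by
  intro x z hxz
  have he0 : e' ≠ 0 := by
    intro h2
    rw [h2, inner_zero_right] at he'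
    norm_num at he'
  have h1 : e + z • e' ≠ e + x • e' := by
    intro h2
    exact hxz.ne' (smul_left_injective ℝ he0 (add_left_cancel h2))
  have h2 := h.mono _ _ h1
  have h3 : e + z • e' - (e + x • e') = (z - x) • e' := by
    rw [sub_smul]
    abel
  rw [h3, real_inner_smul_right] at h2
  have h4 := (mul_pos_iff_of_pos_left (by linarith : (0 : ℝ) < z - x)).1 h2
  rw [inner_sub_left] at h4
  simp only
  linarith

theorem line_top {A : E n → E n} (h : Frz p A) (hp : 1 < p) {e e' : E n} (he' : ⟪e', e'⟫ = 1) :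
    Tendsto (fun t : ℝ => ⟪A (e + t • e'), e'⟫) atTop atTop := by
  have he0 : e' ≠ 0 := by
    intro h2
    rw [h2, inner_zero_right] at he'
    norm_num at he'
  have h1 : Tendsto (fun t : ℝ => ⟪A (t⁻¹ • e + e'), e'⟫) atTop (𝓝 ⟪A e', e'⟫) := by
    have h2 : Tendsto (fun t : ℝ => t⁻¹ • e + e') atTop (𝓝 ((0 : ℝ) • e + e')) :=
      (tendsto_inv_atTop_zero.smul_const e).add_const e'
    rw [zero_smul, zero_add] at h2
    exact ((h.cont.tendsto e').comp h2).inner tendsto_const_nhds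
  have h2 : Tendsto (fun t : ℝ => t ^ (p - 1)) atTop atTop := tendsto_rpow_atTop (by linarith)
  have h3 := h2.atTop_mul_pos (frz_pos' h he0) h1
  refine h3.congr' ?_
  filter_upwards [eventually_gt_atTop (0 : ℝ)] with t ht
  have h4 : e + t • e' = t • (t⁻¹ • e + e') := by
    rw [smul_add, smul_smul, mul_inv_cancel₀ ht.ne', one_smul]
  rw [h4, h.hom _ _ ht, real_inner_smul_left]

theorem line_surj {A : E n → E n} (h : Frz p A) (hp : 1 < p) {e e' : E n}
    (he' : ⟪e', e'⟫ = 1) : Function.Surjective fun t : ℝ => ⟪A (e + t • e'), e'⟫ := by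
  refine Continuous.surjective ((line_cont h e e').inner continuous_const) (line_top h hp he') ?_
  have h1 := (line_top h hp (e := -e) he').comp tendsto_neg_atBot_atTop
  have h2 := tendsto_neg_atTop_atBot.comp h1
  refine h2.congr fun t => ?_
  simp only [Function.comp_apply]
  have h3 : -e + -t • e' = -(e + t • e') := by
    rw [neg_smul, neg_add]
  rw [h3, h.neg, inner_neg_left, neg_neg]

theorem riga : RigaStatement := by
  intro n p A B hn hp hA hB H e e' hne hne' hee t₀
  have he : ⟪e, e⟫ = 1 := by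
    rw [real_inner_self_eq_norm_sq, hne]
    norm_num
  have he' : ⟪e', e'⟫ = 1 := by
    rw [real_inner_self_eq_norm_sq, hne']
    norm_num
  set κ := p - 1 with hκ
  have hκ0 : 0 < κ := by linarith
  set q : ℝ → ℝ := fun t => ⟪A (e + t • e'), e'⟫ with hq
  set h : ℝ → ℝ := fun t => ⟪B (e + t • e'), e'⟫ with hh
  have hqa0 : ∀ t, 0 < κ * ⟪A (e + t • e'), e + t • e'⟫ := fun t =>
    mul_pos hκ0 (frz_pos' hA (line_ne he hee t))
  obtain ⟨T, δ, hδ, hT0, hT⟩ := ode q (fun t => κ * ⟪A (e + t • e'), e + t • e'⟫)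
    (line_strictMono hA he') (line_surj hA hp he')
    (continuous_const.mul ((line_cont hA e e').inner (by fun_prop))) hqa0 t₀
  -- the solution
  set Θ : ℝ → ℝ := fun τ => ∫ σ in (0 : ℝ)..τ, T σ with hΘ
  have hΘd : ∀ τ, HasDerivAt Θ (T τ) τ := fun τ =>
    intervalIntegral.integral_hasDerivAt_right (T.continuous.intervalIntegrable _ _)
      T.continuous.aestronglyMeasurable.stronglyMeasurableAtFilter T.continuous.continuousAt
  have hΘ0 : Θ 0 = 0 := intervalIntegral.integral_same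
  have hΘ1 : ContDiff ℝ 1 Θ := by
    refine contDiff_one_iff_deriv.2 ⟨fun τ => (hΘd τ).differentiableAt, ?_⟩
    have h1 : deriv Θ = fun τ => T τ := funext fun τ => (hΘd τ).deriv
    rw [h1]
    exact T.continuous
  set u : E n → ℝ := fun x => Real.exp (⟪e, x⟫ + Θ ⟪e', x⟫) with hu
  have hu1 : ContDiff ℝ 1 u := by
    refine ContDiff.exp ?_
    exact ((innerSL ℝ e).contDiff).add (hΘ1.comp (innerSL ℝ e').contDiff)
  have hug : ∀ x, ∇ u x = Real.exp (⟪e, x⟫ + Θ ⟪e', x⟫) • (e + T ⟪e', x⟫ • e') := by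
    intro x
    have h1 : HasFDerivAt (fun x : E n => ⟪e, x⟫) (innerSL ℝ e) x := (innerSL ℝ e).hasFDerivAt
    have h2 : HasFDerivAt (fun x : E n => ⟪e', x⟫) (innerSL ℝ e') x := (innerSL ℝ e').hasFDerivAt
    have h3 : HasFDerivAt (fun x : E n => Θ ⟪e', x⟫) (T ⟪e', x⟫ • innerSL ℝ e') x :=
      (hΘd _).comp_hasFDerivAt x h2
    have h4 : HasFDerivAt u (Real.exp (⟪e, x⟫ + Θ ⟪e', x⟫) •
        (innerSL ℝ e + T ⟪e', x⟫ • innerSL ℝ e')) x := (h1.add h3).exp
    have h5 : ∀ v : E n, (InnerProductSpace.toDual ℝ (E n)).symm (innerSL ℝ v) = v := fun v =>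
      (InnerProductSpace.toDual ℝ (E n)).symm_apply_apply v
    rw [grad_of_hasFDerivAt h4, map_smulₛₗ, map_add, map_smulₛₗ, h5, h5]
    simp
  set V : (E n → E n) → ℝ → E n := fun C τ => Real.exp (κ * Θ τ) • C (e + T τ • e') with hV
  have hΘc : Continuous Θ := continuous_iff_continuousAt.2 fun τ => (hΘd τ).continuousAt
  have hVc : ∀ C : E n → E n, Frz p C → Continuous (V C) := by
    intro C hC
    have h1 : Continuous fun τ => Real.exp (κ * Θ τ) :=
      Real.continuous_exp.comp (continuous_const.mul hΘc)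
    exact h1.smul (hC.cont.comp (continuous_const.add (T.continuous.smul continuous_const)))
  have hVu : ∀ C : E n → E n, Frz p C → ∀ x,
      C (∇ u x) = Real.exp (κ * ⟪e, x⟫) • V C ⟪e', x⟫ := by
    intro C hC x
    rw [hug, hC.hom _ _ (Real.exp_pos _), ← Real.exp_mul, hV]
    simp only
    rw [smul_smul, ← Real.exp_add]
    congr 2
    rw [hκ]
    ring
  -- the first operator
  have hVA : ∀ τ, |τ| < δ →
      HasDerivAt (fun r => ⟪V A r, e'⟫) (-κ * ⟪V A τ, e⟫) τ := by
    intro τ hτ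
    have h1 : HasDerivAt (fun r => Real.exp (κ * Θ r)) (Real.exp (κ * Θ τ) * (κ * T τ)) τ :=
      ((hΘd τ).const_mul κ).exp
    have h2 := h1.mul (hT τ hτ)
    have h3 : (fun r => ⟪V A r, e'⟫) = fun r => Real.exp (κ * Θ r) * q (T r) := by
      funext r
      simp only [hV, hq]
      rw [real_inner_smul_left]
    rw [h3]
    refine h2.congr_deriv ?_
    simp only [hV, hq]
    rw [real_inner_smul_left, inner_add_right, real_inner_smul_right]
    ring
  have hA1 : ∀ φ : E n → ℝ, Test (ball 0 δ) φ → ∫ x, ⟪A (∇ u x), ∇ φ x⟫ = 0 := by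
    intro φ hφ
    simp_rw [hVu A hA]
    exact part_a κ he he' hee (hVc A hA) hVA hφ
  obtain ⟨δ', hδ', hB1⟩ := H δ u hδ hu1 hA1
  have hVB : HasDerivAt (fun r => ⟪V B r, e'⟫) (-κ * ⟪V B 0, e⟫) 0 := by
    refine part_b κ he he' hee (hVc B hB) hδ' fun φ hφ => ?_
    have h1 := hB1 φ hφ
    simp_rw [hVu B hB] at h1
    exact h1
  -- the derivatives of `h ∘ T` and `q ∘ T` at `0`
  have hqd : HasDerivAt (fun r => q (T r)) (-(κ * ⟪A (e + t₀ • e'), e + t₀ • e'⟫)) 0 := by
    have h1 := hT 0 (by rwa [abs_zero])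
    rwa [hT0] at h1
  have hhd : HasDerivAt (fun r => h (T r)) (-(κ * ⟪B (e + t₀ • e'), e + t₀ • e'⟫)) 0 := by
    have h1 : HasDerivAt (fun r => Real.exp (-(κ * Θ r)))
        (Real.exp (-(κ * Θ 0)) * (-(κ * T 0))) 0 := (((hΘd 0).const_mul κ).neg).exp
    have h2 := h1.mul hVB
    have h3 : (fun r => h (T r)) = fun r => Real.exp (-(κ * Θ r)) * ⟪V B r, e'⟫ := by
      funext r
      simp only [hV, hh]
      rw [real_inner_smul_left, ← mul_assoc, ← Real.exp_add, neg_add_cancel, Real.exp_zero,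
        one_mul]
    rw [h3]
    refine h2.congr_deriv ?_
    simp only [hV]
    rw [hΘ0, hT0, mul_zero, neg_zero, Real.exp_zero, one_smul, inner_add_right,
      real_inner_smul_right]
    ring
  -- the quotient
  have hlim : Tendsto (fun τ => (h (T τ) - h t₀) / (q (T τ) - q t₀)) (𝓝[≠] 0)
      (𝓝 (⟪B (e + t₀ • e'), e + t₀ • e'⟫ / ⟪A (e + t₀ • e'), e + t₀ • e'⟫)) := by
    have h1 := hasDerivAt_iff_tendsto_slope.1 hqd
    have h2 := hasDerivAt_iff_tendsto_slope.1 hhd
    have h3 : -(κ * ⟪A (e + t₀ • e'), e + t₀ • e'⟫) ≠ 0 := neg_ne_zero.2 (hqa0 t₀).ne'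
    have h4 := h2.div h1 h3
    have h5 : -(κ * ⟪B (e + t₀ • e'), e + t₀ • e'⟫) / -(κ * ⟪A (e + t₀ • e'), e + t₀ • e'⟫) =
        ⟪B (e + t₀ • e'), e + t₀ • e'⟫ / ⟪A (e + t₀ • e'), e + t₀ • e'⟫ := by
      rw [neg_div_neg_eq, mul_div_mul_left _ _ hκ0.ne']
    rw [h5] at h4
    refine h4.congr' ?_
    filter_upwards [self_mem_nhdsWithin] with τ hτ
    have hτ0 : τ ≠ 0 := hτ
    rw [Pi.div_apply, slope_def_field, slope_def_field, hT0, sub_zero,
      div_div_div_cancel_right₀ hτ0]
  have hTs : Tendsto (fun t => T.symm t) (𝓝[≠] t₀) (𝓝[≠] 0) := by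
    have h1 : T.symm t₀ = 0 := by
      rw [← hT0, T.symm_apply_apply]
    refine tendsto_nhdsWithin_iff.2 ⟨?_, ?_⟩
    · have h2 := T.symm.continuous.tendsto t₀
      rw [h1] at h2
      exact h2.mono_left nhdsWithin_le_nhds
    · filter_upwards [self_mem_nhdsWithin] with t ht
      intro h2
      have h3 : T.symm t = T.symm t₀ := by
        rw [h1]
        exact h2
      exact ht (T.symm.injective h3)
  have hfin := hlim.comp hTs
  refine hfin.congr fun t => ?_
  simp only [Function.comp_apply, T.apply_symm_apply, hh, hq]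
  rw [inner_sub_left, inner_sub_left]

end Pool.Agent.Lib.MP_abd978_an.UN.H88
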