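import Pool.Agent.Lib.MP_abd978_an.UN.Interfaces

/-!
# Project UNW, module RIGB: two frozen operators with the relation `RatD` are proportional
-/

set_option autoImplicit false

open MeasureTheory Metric Set Filter Topology ContDiff
open scoped Gradient RealInnerProductSpace NNReal ENNReal

namespace Pool.Agent.Lib.MP_abd978_an.UN.H88

variable {n : ℕ} {p : ℝ} {A B : E n → E n}

theorem frz_zero (h : Frz p A) : A 0 = 0 := by
  have h1 := h.neg 0
  rw [neg_zero] at h1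
  have h2 : (2 : ℝ) • A 0 = 0 := by
    rw [two_smul]
    nth_rewrite 2 [h1]
    exact add_neg_cancel _
  exact (smul_eq_zero.1 h2).resolve_left two_ne_zero

theorem frz_pos (h : Frz p A) {ξ : E n} (hξ : ξ ≠ 0) : 0 < ⟪A ξ, ξ⟫ := by
  have h1 := h.mono ξ 0 hξ
  rwa [frz_zero h, sub_zero, sub_zero] at h1

/-- the ratio of the densities -/
noncomputable def rho (A B : E n → E n) (ξ : E n) : ℝ := ⟪B ξ, ξ⟫ / ⟪A ξ, ξ⟫

theorem frz_inner_smul (h : Frz p A) {l : ℝ} (hl : 0 < l) (ξ : E n) :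
    ⟪A (l • ξ), l • ξ⟫ = l ^ (p - 1) * l * ⟪A ξ, ξ⟫ := by
  rw [h.hom l ξ hl, real_inner_smul_left, real_inner_smul_right]
  ring

theorem rho_smul (hA : Frz p A) (hB : Frz p B) {l : ℝ} (hl : 0 < l) (ξ : E n) :
    rho A B (l • ξ) = rho A B ξ := by
  unfold rho
  rw [frz_inner_smul hA hl, frz_inner_smul hB hl]
  have h1 : l ^ (p - 1) * l ≠ 0 := (mul_pos (Real.rpow_pos_of_pos hl _) hl).ne'
  exact mul_div_mul_left _ _ h1

theorem rho_neg (hA : Frz p A) (hB : Frz p B) (ξ : E n) : rho A B (-ξ) = rho A B ξ := by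
  unfold rho
  rw [hA.neg, hB.neg, inner_neg_neg, inner_neg_neg]

/-- on every line the second operator grows at most `c` times as fast -/
theorem anti (hA : Frz p A) (hB : Frz p B) (hR : RatD A B) {c : ℝ}
    (hc : ∀ ξ : E n, ξ ≠ 0 → rho A B ξ ≤ c) {e e' : E n} (he : ‖e‖ = 1) (he' : ‖e'‖ = 1)
    (h0 : ⟪e, e'⟫ = 0) {s t : ℝ} (hst : s ≤ t) :
    ⟪B (e + t • e') - B (e + s • e'), e'⟫ ≤ c * ⟪A (e + t • e') - A (e + s • e'), e'⟫ := by
  have hne : ∀ r : ℝ, e + r • e' ≠ 0 := by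
    intro r hr
    have h1 : ⟪e, e + r • e'⟫ = 1 := by
      rw [inner_add_right, real_inner_smul_right, h0, real_inner_self_eq_norm_sq, he]
      norm_num
    rw [hr, inner_zero_right] at h1
    norm_num at h1
  have hq : ∀ x z : ℝ, x < z → 0 < ⟪A (e + z • e') - A (e + x • e'), e'⟫ := by
    intro x z hxz
    have h1 : e + z • e' ≠ e + x • e' := by
      intro h2
      have h3 : z • e' = x • e' := add_left_cancel h2
      have h4 : (z - x) • e' = 0 := by rw [sub_smul, h3, sub_self]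
      rcases smul_eq_zero.1 h4 with h5 | h5
      · linarith
      · rw [h5, norm_zero] at he'
        norm_num at he'
    have h2 := hA.mono _ _ h1
    have h3 : e + z • e' - (e + x • e') = (z - x) • e' := by
      rw [sub_smul]
      abel
    rw [h3, real_inner_smul_right] at h2
    exact (mul_pos_iff_of_pos_left (by linarith : (0 : ℝ) < z - x)).1 h2
  have hcA : Continuous fun r : ℝ => ⟪A (e + r • e'), e'⟫ := by
    have h1 : Continuous fun r : ℝ => A (e + r • e') := hA.cont.comp (by fun_prop)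
    exact h1.inner continuous_const
  have hcB : Continuous fun r : ℝ => ⟪B (e + r • e'), e'⟫ := by
    have h1 : Continuous fun r : ℝ => B (e + r • e') := hB.cont.comp (by fun_prop)
    exact h1.inner continuous_const
  have key : ∀ ε : ℝ, 0 < ε → ⟪B (e + t • e') - B (e + s • e'), e'⟫ ≤
      (c + ε) * ⟪A (e + t • e') - A (e + s • e'), e'⟫ := by
    intro ε hε
    set F : ℝ → ℝ := fun r => ⟪B (e + r • e'), e'⟫ - (c + ε) * ⟪A (e + r • e'), e'⟫ with hF
    have hcF : Continuous F := hcB.sub (continuous_const.mul hcA)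
    have h2 : ∀ ⦃x : ℝ⦄, x ∈ Icc s t → F x ≤ (fun _ => F s) x := by
      refine image_le_of_liminf_slope_right_le_deriv_boundary (B' := fun _ => 0)
        hcF.continuousOn le_rfl continuousOn_const
        (fun x _ => (hasDerivAt_const x (F s)).hasDerivWithinAt) ?_
      intro x _ r hr
      refine Eventually.frequently ?_
      have h3 := hR e e' he he' h0 x
      have h4 : ∀ᶠ z : ℝ in 𝓝[≠] x, ⟪B (e + z • e') - B (e + x • e'), e'⟫ /
          ⟪A (e + z • e') - A (e + x • e'), e'⟫ < c + ε := by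
        refine h3.eventually_lt_const ?_
        have h5 := hc _ (hne x)
        unfold rho at h5
        linarith
      have h5 : ∀ᶠ z : ℝ in 𝓝[>] x, ⟪B (e + z • e') - B (e + x • e'), e'⟫ /
          ⟪A (e + z • e') - A (e + x • e'), e'⟫ < c + ε :=
        h4.filter_mono (nhdsWithin_mono x fun y hy => ne_of_gt hy)
      filter_upwards [h5, self_mem_nhdsWithin] with z hz hz'
      have h6 : x < z := hz'
      have h7 := hq x z h6
      rw [div_lt_iff₀ h7] at hz
      have h8 : F z - F x < 0 := by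
        rw [hF]
        rw [inner_sub_left, inner_sub_left] at hz
        simp only
        nlinarith [hz]
      rw [slope_def_field]
      have h9 : (F z - F x) / (z - x) < 0 := div_neg_of_neg_of_pos h8 (by linarith)
      linarith
    have h3 := h2 (right_mem_Icc.2 hst)
    simp only [hF] at h3
    rw [inner_sub_left, inner_sub_left]
    nlinarith [h3]
  have hQ : 0 ≤ ⟪A (e + t • e') - A (e + s • e'), e'⟫ := by
    rcases hst.eq_or_lt with h1 | h1
    · rw [h1, sub_self, inner_zero_left]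
    · exact (hq s t h1).le
  refine le_of_forall_pos_le_add fun δ hδ => ?_
  set Q := ⟪A (e + t • e') - A (e + s • e'), e'⟫ with hQd
  have h1 := key (δ / (Q + 1)) (by positivity)
  have h2 : δ / (Q + 1) * Q ≤ δ := by
    rw [div_mul_eq_mul_div, div_le_iff₀ (by positivity)]
    nlinarith
  nlinarith

theorem hom_vec (hA : Frz p A) {v e' : E n} (hv : v ≠ 0) (t : ℝ) :
    A (v + t • e') = ‖v‖ ^ (p - 1) • A (‖v‖⁻¹ • v + (t / ‖v‖) • e') := by
  have h1 : 0 < ‖v‖ := norm_pos_iff.2 hv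
  rw [← hA.hom _ _ h1]
  congr 1
  rw [smul_add, smul_smul, smul_smul, mul_inv_cancel₀ h1.ne', one_smul]
  congr 2
  field_simp

/-- `c A - B` is monotone -/
theorem monoM (hA : Frz p A) (hB : Frz p B) (hR : RatD A B) (hp : 2 < p) {c : ℝ}
    (hc : ∀ ξ : E n, ξ ≠ 0 → rho A B ξ ≤ c) (ξ η : E n) :
    ⟪B ξ - B η, ξ - η⟫ ≤ c * ⟪A ξ - A η, ξ - η⟫ := by
  by_cases hξη : ξ = η
  · rw [hξη]
    simp
  have hpos : 0 < ‖ξ - η‖ := norm_pos_iff.2 (sub_ne_zero.2 hξη)
  set e' : E n := ‖ξ - η‖⁻¹ • (ξ - η) with he'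
  have hn' : ‖e'‖ = 1 := by
    rw [he', norm_smul, norm_inv, norm_norm, inv_mul_cancel₀ hpos.ne']
  have hd : ξ - η = ‖ξ - η‖ • e' := by
    rw [he', smul_smul, mul_inv_cancel₀ hpos.ne', one_smul]
  have hee : ⟪e', e'⟫ = 1 := by
    rw [real_inner_self_eq_norm_sq, hn']
    norm_num
  set v : E n := ξ - ⟪ξ, e'⟫ • e' with hv
  have hve : ⟪v, e'⟫ = 0 := by
    rw [hv, inner_sub_left, real_inner_smul_left, hee]
    ring
  have hξ : ξ = v + ⟪ξ, e'⟫ • e' := by
    rw [hv]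
    abel
  have hη0 : η = ξ - ‖ξ - η‖ • e' := by
    rw [← hd]
    abel
  have hηe : ⟪η, e'⟫ = ⟪ξ, e'⟫ - ‖ξ - η‖ := by
    have h1 : ⟪ξ - η, e'⟫ = ‖ξ - η‖ := by
      nth_rewrite 1 [hd]
      rw [real_inner_smul_left, hee, mul_one]
    rw [inner_sub_left] at h1
    linarith
  have hη : η = v + ⟪η, e'⟫ • e' := by
    rw [hηe, sub_smul, ← hd, hv]
    abel
  have hle : ⟪η, e'⟫ ≤ ⟪ξ, e'⟫ := by
    rw [hηe]
    linarith
  have hgoal : ⟪B ξ - B η, e'⟫ ≤ c * ⟪A ξ - A η, e'⟫ := by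
    by_cases hv0 : v = 0
    · -- both vectors are multiples of `e'`
      have h1 : ∀ (C : E n → E n), Frz p C → ∀ t : ℝ,
          ⟪C (t • e'), e'⟫ = (SignType.sign t : ℝ) * |t| ^ (p - 1) * ⟪C e', e'⟫ := by
        intro C hC t
        rcases lt_trichotomy t 0 with ht | ht | ht
        · have h2 : t • e' = -(|t| • e') := by
            rw [abs_of_neg ht, neg_smul, neg_neg]
          rw [h2, hC.neg, hC.hom _ _ (abs_pos.2 ht.ne), inner_neg_left, real_inner_smul_left,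
            sign_neg ht]
          simp
        · rw [ht, zero_smul, frz_zero hC, inner_zero_left, sign_zero]
          simp
        · rw [hC.hom _ _ ht, real_inner_smul_left, sign_pos ht, abs_of_pos ht]
          simp
      have he0 : e' ≠ 0 := by
        intro h2
        rw [h2, norm_zero] at hn'
        norm_num at hn'
      have h2 := hc e' he0
      unfold rho at h2
      rw [div_le_iff₀ (frz_pos hA he0)] at h2
      have hξ' : ξ = ⟪ξ, e'⟫ • e' := by
        rw [hv0, zero_add] at hξ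
        exact hξ
      have hη' : η = ⟪η, e'⟫ • e' := by
        rw [hv0, zero_add] at hη
        exact hη
      rw [hξ', hη', inner_sub_left, inner_sub_left, h1 A hA, h1 A hA, h1 B hB, h1 B hB]
      have h3 : (SignType.sign ⟪η, e'⟫ : ℝ) * |⟪η, e'⟫| ^ (p - 1) ≤
          (SignType.sign ⟪ξ, e'⟫ : ℝ) * |⟪ξ, e'⟫| ^ (p - 1) := by
        generalize ⟪η, e'⟫ = a at hle ⊢
        generalize ⟪ξ, e'⟫ = b at hle ⊢
        rcases lt_trichotomy a 0 with ha | ha | ha
        · rcases lt_trichotomy b 0 with hb | hb | hb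
          · rw [sign_neg ha, sign_neg hb]
            simp only [SignType.coe_neg, SignType.coe_one, neg_mul, one_mul, neg_le_neg_iff]
            refine Real.rpow_le_rpow (abs_nonneg _) ?_ (by linarith)
            rw [abs_of_neg ha, abs_of_neg hb]
            linarith
          · rw [sign_neg ha, hb, sign_zero]
            simp only [SignType.coe_neg, SignType.coe_one, SignType.coe_zero, neg_mul, one_mul,
              zero_mul]
            have := Real.rpow_nonneg (abs_nonneg a) (p - 1)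
            linarith
          · rw [sign_neg ha, sign_pos hb]
            simp only [SignType.coe_neg, SignType.coe_one, neg_mul, one_mul]
            have := Real.rpow_nonneg (abs_nonneg a) (p - 1)
            have := Real.rpow_nonneg (abs_nonneg b) (p - 1)
            linarith
        · rcases (ha ▸ hle : (0 : ℝ) ≤ b).eq_or_lt with hb | hb
          · rw [ha, ← hb]
          · rw [ha, sign_zero, sign_pos hb]
            simp only [SignType.coe_one, SignType.coe_zero, one_mul, zero_mul]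
            exact Real.rpow_nonneg (abs_nonneg b) (p - 1)
        · have hb : 0 < b := ha.trans_le hle
          rw [sign_pos ha, sign_pos hb]
          simp only [SignType.coe_one, one_mul]
          refine Real.rpow_le_rpow (abs_nonneg _) ?_ (by linarith)
          rw [abs_of_pos ha, abs_of_pos hb]
          exact hle
      nlinarith [mul_le_mul_of_nonneg_left h2 (sub_nonneg.2 h3)]
    · have hvp : 0 < ‖v‖ := norm_pos_iff.2 hv0
      have h1 : ‖(‖v‖⁻¹ • v : E n)‖ = 1 := by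
        rw [norm_smul, norm_inv, norm_norm, inv_mul_cancel₀ hvp.ne']
      have h2 : ⟪(‖v‖⁻¹ • v : E n), e'⟫ = 0 := by
        rw [real_inner_smul_left, hve, mul_zero]
      have h3 : ⟪η, e'⟫ / ‖v‖ ≤ ⟪ξ, e'⟫ / ‖v‖ := div_le_div_of_nonneg_right hle hvp.le
      have h4 := anti hA hB hR hc h1 hn' h2 h3
      have h5 : ∀ (C : E n → E n), Frz p C → ⟪C ξ - C η, e'⟫ = ‖v‖ ^ (p - 1) *
          ⟪C (‖v‖⁻¹ • v + (⟪ξ, e'⟫ / ‖v‖) • e') - C (‖v‖⁻¹ • v + (⟪η, e'⟫ / ‖v‖) • e'), e'⟫ := by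
        intro C hC
        nth_rewrite 1 [hξ]
        nth_rewrite 1 [hη]
        rw [hom_vec hC hv0, hom_vec hC hv0, ← smul_sub, real_inner_smul_left]
      rw [h5 A hA, h5 B hB]
      have h6 : 0 < ‖v‖ ^ (p - 1) := Real.rpow_pos_of_pos hvp _
      nlinarith [mul_le_mul_of_nonneg_left h4 h6.le]
  have hfin : ∀ w : E n, ⟪w, ξ - η⟫ = ‖ξ - η‖ * ⟪w, e'⟫ := by
    intro w
    nth_rewrite 1 [hd]
    rw [real_inner_smul_right]
  rw [hfin (B ξ - B η), hfin (A ξ - A η)]
  nlinarith [mul_le_mul_of_nonneg_left hgoal hpos.le]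

/-- at a maximum point of the ratio -/
theorem orth (hA : Frz p A) (hB : Frz p B) (hR : RatD A B) (hp : 2 < p) {c : ℝ}
    (hc : ∀ ξ : E n, ξ ≠ 0 → rho A B ξ ≤ c) {ξ₀ : E n} (h0 : ξ₀ ≠ 0) (hmax : rho A B ξ₀ = c)
    (ξ : E n) : ⟪c • A ξ - B ξ, ξ₀⟫ = 0 ∧ ⟪c • A ξ₀ - B ξ₀, ξ⟫ = 0 := by
  have hz : ⟪B ξ₀, ξ₀⟫ = c * ⟪A ξ₀, ξ₀⟫ := by
    unfold rho at hmax
    rwa [div_eq_iff (frz_pos hA h0).ne'] at hmax
  have hM : ∀ t : ℝ, 0 < t →
      |t * ⟪c • A ξ - B ξ, ξ₀⟫ + t ^ (p - 1) * ⟪c • A ξ₀ - B ξ₀, ξ⟫| ≤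
        ⟪c • A ξ - B ξ, ξ⟫ := by
    intro t ht
    have h1 := monoM hA hB hR hp hc ξ (t • ξ₀)
    have h2 := monoM hA hB hR hp hc ξ (-(t • ξ₀))
    rw [hA.neg, hB.neg] at h2
    rw [hA.hom _ _ ht, hB.hom _ _ ht] at h1 h2
    simp only [inner_sub_left, inner_sub_right, inner_neg_left, inner_neg_right,
      real_inner_smul_left, real_inner_smul_right] at h1 h2 ⊢
    rw [hz] at h1 h2
    rw [abs_le]
    constructor
    · nlinarith [h1, h2]
    · nlinarith [h1, h2]
  set x := ⟪c • A ξ - B ξ, ξ₀⟫ with hx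
  set y := ⟪c • A ξ₀ - B ξ₀, ξ⟫ with hy
  set K := ⟪c • A ξ - B ξ, ξ⟫ with hK
  have hy0 : y = 0 := by
    -- divide by `t ^ (p - 1)` and let `t → ∞`
    have h1 : Tendsto (fun t : ℝ => K * t ^ (-(p - 1)) + |x| * t ^ (-(p - 2))) atTop (𝓝 (K * 0 + |x| * 0)) := by
      refine Tendsto.add ?_ ?_
      · exact (tendsto_rpow_neg_atTop (by linarith)).const_mul K
      · exact (tendsto_rpow_neg_atTop (by linarith)).const_mul |x|
    have h2 : ∀ᶠ t : ℝ in atTop, |y| ≤ K * t ^ (-(p - 1)) + |x| * t ^ (-(p - 2)) := by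
      filter_upwards [eventually_gt_atTop (0 : ℝ)] with t ht
      have h3 := hM t ht
      have h4 : t ^ (p - 1) * |y| ≤ K + t * |x| := by
        have h5 : |t ^ (p - 1) * y| ≤ |t * x + t ^ (p - 1) * y| + |t * x| := by
          have h6 := abs_sub (t * x + t ^ (p - 1) * y) (t * x)
          have h7 : t * x + t ^ (p - 1) * y - t * x = t ^ (p - 1) * y := by ring
          rw [h7] at h6
          exact h6
        rw [abs_mul, abs_of_pos (Real.rpow_pos_of_pos ht _), abs_mul t x, abs_of_pos ht] at h5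
        linarith
      have h5 : t ^ (-(p - 1)) * t ^ (p - 1) = 1 := by
        rw [← Real.rpow_add ht]
        simp
      have h6 : t ^ (-(p - 1)) * t = t ^ (-(p - 2)) := by
        nth_rewrite 2 [← Real.rpow_one t]
        rw [← Real.rpow_add ht]
        congr 1
        ring
      have h7 : 0 < t ^ (-(p - 1)) := Real.rpow_pos_of_pos ht _
      calc |y| = t ^ (-(p - 1)) * (t ^ (p - 1) * |y|) := by rw [← mul_assoc, h5, one_mul]
        _ ≤ t ^ (-(p - 1)) * (K + t * |x|) := mul_le_mul_of_nonneg_left h4 h7.le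
        _ = K * t ^ (-(p - 1)) + |x| * (t ^ (-(p - 1)) * t) := by ring
        _ = _ := by rw [h6]
    have h3 := ge_of_tendsto h1 h2
    simp only [mul_zero, add_zero] at h3
    exact abs_nonpos_iff.1 h3
  have hx0 : x = 0 := by
    by_contra hne
    have h1 : 0 < |x| := abs_pos.2 hne
    have h2 := hM ((|K| + 1) / |x|) (by positivity)
    rw [hy0, mul_zero, add_zero, abs_mul, abs_of_pos (by positivity : 0 < (|K| + 1) / |x|),
      div_mul_cancel₀ _ h1.ne'] at h2
    have h3 := le_abs_self K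
    linarith
  exact ⟨hx0, hy0⟩

/-- the ratio is constant -/
theorem rho_const (hA : Frz p A) (hB : Frz p B) (hR : RatD A B) (hp : 2 < p) {c : ℝ}
    (hc : ∀ ξ : E n, ξ ≠ 0 → rho A B ξ ≤ c) {ξ₀ : E n} (h0 : ‖ξ₀‖ = 1) (hmax : rho A B ξ₀ = c)
    {ξ : E n} (hξ : ξ ≠ 0) : rho A B ξ = c := by
  have hξ₀ : ξ₀ ≠ 0 := by
    intro h
    rw [h, norm_zero] at h0
    norm_num at h0
  have h00 : ⟪ξ₀, ξ₀⟫ = 1 := by
    rw [real_inner_self_eq_norm_sq, h0]
    norm_num
  set v : E n := ξ - ⟪ξ, ξ₀⟫ • ξ₀ with hv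
  have hξv : ξ = v + ⟪ξ, ξ₀⟫ • ξ₀ := by
    rw [hv]
    abel
  have hve : ⟪v, ξ₀⟫ = 0 := by
    rw [hv, inner_sub_left, real_inner_smul_left, h00]
    ring
  by_cases hv0 : v = 0
  · rw [hv0, zero_add] at hξv
    rcases lt_trichotomy ⟪ξ, ξ₀⟫ 0 with h1 | h1 | h1
    · have h2 : ξ = -((-⟪ξ, ξ₀⟫) • ξ₀) := by
        rw [neg_smul, neg_neg]
        exact hξv
      rw [h2, rho_neg hA hB, rho_smul hA hB (by linarith), hmax]
    · rw [h1, zero_smul] at hξv
      exact absurd hξv hξ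
    · rw [hξv, rho_smul hA hB h1, hmax]
  · have hvp : 0 < ‖v‖ := norm_pos_iff.2 hv0
    have h1 : ‖(‖v‖⁻¹ • v : E n)‖ = 1 := by
      rw [norm_smul, norm_inv, norm_norm, inv_mul_cancel₀ hvp.ne']
    have h2 : ⟪(‖v‖⁻¹ • v : E n), ξ₀⟫ = 0 := by
      rw [real_inner_smul_left, hve, mul_zero]
    have h3 : ξ = ‖v‖ • (‖v‖⁻¹ • v + (⟪ξ, ξ₀⟫ / ‖v‖) • ξ₀) := by
      rw [smul_add, smul_smul, smul_smul, mul_inv_cancel₀ hvp.ne', one_smul,
        mul_div_cancel₀ _ hvp.ne']
      exact hξv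
    rw [h3, rho_smul hA hB hvp]
    have h4 := hR _ _ h1 h0 h2 (⟪ξ, ξ₀⟫ / ‖v‖)
    refine tendsto_nhds_unique h4 ?_
    refine Tendsto.congr' ?_ tendsto_const_nhds
    filter_upwards [self_mem_nhdsWithin] with z hz
    have h5 : ∀ w : E n, ⟪B w, ξ₀⟫ = c * ⟪A w, ξ₀⟫ := by
      intro w
      have h6 := (orth hA hB hR hp hc hξ₀ hmax w).1
      rw [inner_sub_left, real_inner_smul_left] at h6
      linarith
    rw [inner_sub_left, inner_sub_left, h5, h5, ← mul_sub, eq_comm, mul_div_assoc, ← inner_sub_left]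
    have h6 : ⟪A (‖v‖⁻¹ • v + z • ξ₀) - A (‖v‖⁻¹ • v + (⟪ξ, ξ₀⟫ / ‖v‖) • ξ₀), ξ₀⟫ ≠ 0 := by
      intro h7
      have h8 : ‖v‖⁻¹ • v + z • ξ₀ ≠ ‖v‖⁻¹ • v + (⟪ξ, ξ₀⟫ / ‖v‖) • ξ₀ := by
        intro h9
        have h10 : z • ξ₀ = (⟪ξ, ξ₀⟫ / ‖v‖) • ξ₀ := add_left_cancel h9
        exact hz (smul_left_injective ℝ hξ₀ h10)
      have h9 := hA.mono _ _ h8
      have h10 : ‖v‖⁻¹ • v + z • ξ₀ - (‖v‖⁻¹ • v + (⟪ξ, ξ₀⟫ / ‖v‖) • ξ₀) =
          (z - ⟪ξ, ξ₀⟫ / ‖v‖) • ξ₀ := by
        rw [sub_smul]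
        abel
      rw [h10, real_inner_smul_right, h7, mul_zero] at h9
      exact lt_irrefl _ h9
    rw [div_self h6, mul_one]

theorem rigb : RigbStatement := by
  intro n p A B hn hp hA hB hR
  have : Nonempty (Fin n) := ⟨⟨0, by omega⟩⟩
  -- the maximum of the ratio
  have hcomp : IsCompact (sphere (0 : E n) 1) := isCompact_sphere 0 1
  have hne : (sphere (0 : E n) 1).Nonempty := NormedSpace.sphere_nonempty.2 zero_le_one
  have hcont : ContinuousOn (rho A B) (sphere (0 : E n) 1) := by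
    intro x hx
    have hx0 : x ≠ 0 := by
      intro h
      rw [mem_sphere_zero_iff_norm, h, norm_zero] at hx
      norm_num at hx
    have h1 : ContinuousAt (fun ξ => ⟪B ξ, ξ⟫) x := (hB.cont.inner continuous_id).continuousAt
    have h2 : ContinuousAt (fun ξ => ⟪A ξ, ξ⟫) x := (hA.cont.inner continuous_id).continuousAt
    exact (h1.div h2 (frz_pos hA hx0).ne').continuousWithinAt
  obtain ⟨ξ₀, hξ₀, hmax⟩ := hcomp.exists_isMaxOn hne hcont
  rw [mem_sphere_zero_iff_norm] at hξ₀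
  have hc : ∀ ξ : E n, ξ ≠ 0 → rho A B ξ ≤ rho A B ξ₀ := by
    intro ξ hξ
    have h1 : 0 < ‖ξ‖⁻¹ := inv_pos.2 (norm_pos_iff.2 hξ)
    rw [← rho_smul hA hB h1 ξ]
    refine hmax ?_
    rw [mem_sphere_zero_iff_norm, norm_smul, norm_inv, norm_norm,
      inv_mul_cancel₀ (norm_pos_iff.2 hξ).ne']
  refine ⟨rho A B ξ₀, ?_, ?_⟩
  · have h0 : ξ₀ ≠ 0 := by
      intro h
      rw [h, norm_zero] at hξ₀
      norm_num at hξ₀
    exact div_pos (frz_pos hB h0) (frz_pos hA h0)
  · intro ξ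
    have h1 : ∀ η : E n, ⟪rho A B ξ₀ • A ξ - B ξ, η⟫ = 0 := by
      intro η
      by_cases hη : η = 0
      · rw [hη, inner_zero_right]
      · have h2 := rho_const hA hB hR hp hc hξ₀ rfl hη
        exact (orth hA hB hR hp hc hη h2 ξ).1
    have h2 := h1 (rho A B ξ₀ • A ξ - B ξ)
    rw [inner_self_eq_zero, sub_eq_zero] at h2
    exact h2.symm

end Pool.Agent.Lib.MP_abd978_an.UN.H88
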